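import Mathlib

/-!
# Functions on a symmetric group killed by antisymmetrizers

If a translation invariant family of functions on the permutations of a finite set is killed by
all antisymmetrizers on `g+1` letters, then it contains a nonzero function which is invariant
under a Young subgroup with at most `g` blocks.
-/

namespace VC

open Equiv Finset Function

variable {ι : Type*} [Fintype ι] [DecidableEq ι] {X : Type*} [AddCommGroup X]

/-- The permutations of `ι` fixing every element outside `J`. -/
def permOn (J : Finset ι) : Finset (Perm ι) := univ.filter (fun τ => ∀ i, i ∉ J → τ i = i)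

/-- The fibre of a colouring. -/
def fib (c : ι → ι) (i : ι) : Finset ι := univ.filter (fun x => c x = i)

omit [Fintype ι] in
/-- Invariance of a function on permutations under the Young subgroup of a colouring. -/
def Inv (c : ι → ι) (f : Perm ι → X) : Prop :=
  ∀ τ : Perm ι, (∀ i, c (τ i) = c i) → ∀ κ, f (κ * τ) = f κ

/-- The potential of a colouring: sum of squares of the sizes of the fibres. -/
def pot (c : ι → ι) : ℕ := ∑ i, (#(fib c i)) ^ 2

@[simp] lemma mem_fib {c : ι → ι} {i x : ι} : x ∈ fib c i ↔ c x = i := by simp [fib]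

@[simp] lemma mem_permOn {J : Finset ι} {τ : Perm ι} :
    τ ∈ permOn J ↔ ∀ i, i ∉ J → τ i = i := by simp [permOn]

omit [Fintype ι] in
lemma comp_swap {c : ι → ι} {a b : ι} (h : c a = c b) (z : ι) : c (swap a b z) = c z := by
  by_cases hza : z = a
  · subst hza; simp [h]
  · by_cases hzb : z = b
    · subst hzb; simp [h]
    · rw [swap_apply_of_ne_of_ne hza hzb]

lemma fib_update (c : ι → ι) (y j : ι) (hyj : c y ≠ j) :
    fib (update c y j) j = insert y (fib c j) := by
  ext x
  by_cases hx : x = y
  · subst hx; simp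
  · simp [hx]

lemma transfer_inv (c : ι → ι) (y j : ι) (hyj : c y ≠ j) (f : Perm ι → X) (hf : Inv c f) :
    Inv (update c y j) (fun κ => ∑ x ∈ insert y (fib c j), f (κ * swap x y)) := by
  intro τ hτ κ
  rw [← fib_update c y j hyj]
  set c' := update c y j with hc'
  have hc'y : c' y = j := by simp [hc']
  have hne : ∀ z, z ≠ y → c' z = c z := by
    intro z hz; simp [hc', hz]
  have step : ∀ x ∈ fib c' j, f (κ * τ * swap x y) = f (κ * swap (τ x) y) := by
    intro x hx
    rw [mem_fib] at hx
    have e : κ * τ * swap x y = (κ * swap (τ x) y) * (swap (τ x) y * τ * swap x y) := by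
      simp only [mul_assoc]
      rw [← mul_assoc (swap (τ x) y) (swap (τ x) y), swap_mul_self, one_mul]
    rw [e]
    apply hf
    have hy : (swap (τ x) y * τ * swap x y) y = y := by simp
    intro z
    by_cases hz : z = y
    · rw [hz, hy]
    · have h1 : (swap (τ x) y * τ * swap x y) z ≠ y := by
        intro h
        apply hz
        exact (swap (τ x) y * τ * swap x y).injective (h.trans hy.symm)
      rw [← hne z hz, ← hne _ h1]
      simp only [Perm.mul_apply]
      rw [comp_swap (c := c') (a := τ x) (b := y), hτ, comp_swap (c := c') (a := x) (b := y)]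
      · rw [hx, hc'y]
      · rw [hτ, hx, hc'y]
  beta_reduce
  rw [Finset.sum_congr rfl step]
  refine Finset.sum_equiv τ (fun x => ?_) (fun x _ => rfl)
  simp [hτ]

lemma pot_lt (c : ι → ι) (y j : ι) (hyj : c y ≠ j) (hle : #(fib c (c y)) ≤ #(fib c j)) :
    pot c < pot (update c y j) := by
  set i := c y with hi
  have hij : i ≠ j := hyj
  have h1 : fib (update c y j) j = insert y (fib c j) := fib_update c y j hyj
  have h2 : fib (update c y j) i = (fib c i).erase y := by
    ext x
    by_cases hx : x = y
    · subst hx; simp [hij.symm]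
    · simp [hx]
  have h3 : ∀ l, l ≠ i → l ≠ j → fib (update c y j) l = fib c l := by
    intro l hli hlj
    ext x
    by_cases hx : x = y
    · subst hx; simp [hlj.symm, ← hi, hli.symm]
    · simp [hx]
  have hyi : y ∈ fib c i := by simp [hi]
  have hyj' : y ∉ fib c j := by rw [mem_fib]; exact hij
  have c1 : #(fib (update c y j) j) = #(fib c j) + 1 := by
    rw [h1, card_insert_of_notMem hyj']
  have c2 : #(fib (update c y j) i) + 1 = #(fib c i) := by
    rw [h2, card_erase_add_one hyi]
  unfold pot
  rw [← Finset.add_sum_erase univ _ (mem_univ i), ← Finset.add_sum_erase (univ.erase i) _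
    (show j ∈ univ.erase i by simp [hij.symm]),
    ← Finset.add_sum_erase univ (fun l => (#(fib (update c y j) l)) ^ 2) (mem_univ i),
    ← Finset.add_sum_erase (univ.erase i) (fun l => (#(fib (update c y j) l)) ^ 2)
    (show j ∈ univ.erase i by simp [hij.symm])]
  have h4 : ∑ x ∈ (univ.erase i).erase j, (#(fib (update c y j) x)) ^ 2 =
      ∑ x ∈ (univ.erase i).erase j, (#(fib c x)) ^ 2 := by
    apply Finset.sum_congr rfl
    intro l hl
    simp only [mem_erase, mem_univ, and_true] at hl
    rw [h3 l hl.2 hl.1]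
  rw [h4, c1]
  nlinarith

section claim

variable [Module ℚ X]
variable (c : ι → ι) (T : Finset ι)

/-- Selections of one element from each fibre with colour in `T`. -/
abbrev Sel := ∀ w : T, {x // x ∈ fib c w}

/-- The embedding of the colour set given by a selection. -/
def emb (x : Sel c T) : T ↪ ι :=
  ⟨fun w => (x w).1, fun w w' h => by
    have h1 := mem_fib.mp (x w).2
    have h2 := mem_fib.mp (x w').2
    apply Subtype.ext
    rw [← h1, ← h2]
    exact congrArg c h⟩

/-- The permutation of the positions induced by a permutation of colours and a selection. -/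
def via (τ : Perm T) (x : Sel c T) : Perm ι := τ.viaFintypeEmbedding (emb c T x)

lemma via_mul (τ τ' : Perm T) (x : Sel c T) : via c T (τ * τ') x = via c T τ x * via c T τ' x := by
  unfold via Perm.viaFintypeEmbedding
  rw [Perm.extendDomain_mul]

lemma via_one (x : Sel c T) : via c T 1 x = 1 := by
  unfold via Perm.viaFintypeEmbedding
  rw [Perm.extendDomain_one]

lemma via_apply (τ : Perm T) (x : Sel c T) (w : T) : via c T τ x (x w).1 = (x (τ w)).1 :=
  Perm.viaFintypeEmbedding_apply_image τ (emb c T x) w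

lemma via_apply_not (τ : Perm T) (x : Sel c T) (i : ι) (h : ∀ w, (x w).1 ≠ i) :
    via c T τ x i = i := by
  apply Perm.viaFintypeEmbedding_apply_notMem_range
  rintro ⟨w, hw⟩
  exact h w hw

lemma via_swap (x : Sel c T) (a b : T) : via c T (swap a b) x = swap (x a).1 (x b).1 := by
  have inj : ∀ w w' : T, (x w).1 = (x w').1 → w = w' := fun w w' h => (emb c T x).injective h
  ext i
  by_cases h : ∃ w, (x w).1 = i
  · obtain ⟨w, rfl⟩ := h
    rw [via_apply]
    by_cases hwa : w = a
    · subst hwa; rw [swap_apply_left, swap_apply_left]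
    · by_cases hwb : w = b
      · subst hwb; rw [swap_apply_right, swap_apply_right]
      · rw [swap_apply_of_ne_of_ne hwa hwb, swap_apply_of_ne_of_ne]
        · exact fun h => hwa (inj _ _ h)
        · exact fun h => hwb (inj _ _ h)
  · push Not at h
    rw [via_apply_not c T _ x i h, swap_apply_of_ne_of_ne (h a).symm (h b).symm]

/-- The permutation attached to a selection does not see the values on fixed colours. -/
lemma via_update (τ : Perm T) (x : Sel c T) (j : T) (hj : τ j = j) (y : {z // z ∈ fib c j}) :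
    via c T τ (update x j y) = via c T τ x := by
  ext i
  by_cases h : ∃ w, (x w).1 = i
  · obtain ⟨w, rfl⟩ := h
    rw [via_apply]
    by_cases hwj : w = j
    · subst hwj
      rw [hj]
      by_cases hyx : y = x w
      · rw [hyx, update_eq_self, via_apply, hj]
      · apply via_apply_not
        intro w' hw'
        by_cases hw'w : w' = w
        · subst hw'w
          apply hyx
          apply Subtype.ext
          simpa using hw'
        · rw [update_of_ne hw'w] at hw'
          exact hw'w ((emb c T x).injective hw')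
    · have e1 : (x w).1 = (update x j y w).1 := by rw [update_of_ne hwj]
      have hτw : τ w ≠ j := by
        intro h'
        apply hwj
        exact τ.injective (h'.trans hj.symm)
      rw [e1, via_apply, update_of_ne hτw]
  · push Not at h
    rw [via_apply_not c T _ x i h]
    by_cases hy : y.1 = i
    · have : i = ((update x j y) j).1 := by simp [hy]
      rw [this, via_apply, hj]
    · apply via_apply_not
      intro w
      by_cases hwj : w = j
      · subst hwj; simpa using hy
      · rw [update_of_ne hwj]; exact h w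

lemma sum_update {A : Type*} [AddCommMonoid A] (j : T) (G : Sel c T → A) :
    ∑ x : Sel c T, ∑ y : {z // z ∈ fib c j}, G (update x j y) =
      #(fib c j) • ∑ x : Sel c T, G x := by
  rw [← Finset.sum_product']
  have e : ∑ p ∈ (univ : Finset (Sel c T)) ×ˢ (univ : Finset {z // z ∈ fib c j}),
      G (update p.1 j p.2) =
      ∑ p ∈ (univ : Finset (Sel c T)) ×ˢ (univ : Finset {z // z ∈ fib c j}), G p.1 := by
    refine Finset.sum_nbij' (fun p => (update p.1 j p.2, p.1 j)) (fun p => (update p.1 j p.2, p.1 j))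
      ?_ ?_ ?_ ?_ ?_
    · intro p _; simp
    · intro p _; simp
    · intro p _; simp
    · intro p _; simp
    · intro p _; simp
  rw [e, Finset.sum_product_right' _ _ (fun x _ => G x)]
  simp

lemma claim (f : Perm ι → X)
    (hne : ∀ w ∈ T, (fib c w).Nonempty)
    (htr : ∀ i ∈ T, ∀ j ∈ T, i ≠ j → #(fib c i) ≤ #(fib c j) → ∀ y ∈ fib c i, ∀ κ,
      ∑ x ∈ fib c j, f (κ * swap x y) = - f κ) (τ : Perm T) :
    ∃ q : ℚ, 0 < q ∧ ∀ κ, ∑ x : Sel c T, f (κ * via c T τ x) =
      (((Perm.sign τ : ℤˣ) : ℤ) : ℚ) • q • f κ := by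
  induction' hn : #τ.support using Nat.strong_induction_on with n ih generalizing τ
  by_cases h1 : τ = 1
  · subst h1
    have : Nonempty (Sel c T) := ⟨fun w => ⟨(hne w w.2).choose, (hne w w.2).choose_spec⟩⟩
    refine ⟨Fintype.card (Sel c T), by exact_mod_cast Fintype.card_pos, fun κ => ?_⟩
    simp only [via_one, mul_one, sum_const, card_univ, Perm.sign_one, Units.val_one, Int.cast_one,
      one_smul]
    rw [Nat.cast_smul_eq_nsmul ℚ]
  · have hsupp : τ.support.Nonempty := by
      rw [Finset.nonempty_iff_ne_empty]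
      intro h
      exact h1 (Perm.support_eq_empty_iff.mp h)
    obtain ⟨r, hr, hmin⟩ := Finset.exists_min_image τ.support (fun w => #(fib c w)) hsupp
    set j := τ r with hj
    have hjr : j ≠ r := Perm.mem_support.mp hr
    have hjs : j ∈ τ.support := Perm.apply_mem_support.mpr hr
    set κ' : Perm T := τ * swap j r with hκ'
    have hκj : κ' j = j := by rw [hκ', Perm.mul_apply, swap_apply_left, ← hj]
    have hτ : τ = κ' * swap j r := by rw [hκ', mul_assoc, swap_mul_self, mul_one]
    have hsub : κ'.support ⊂ τ.support := by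
      rw [Finset.ssubset_iff_of_subset]
      · exact ⟨j, hjs, by rw [Perm.notMem_support]; exact hκj⟩
      · intro w hw
        by_contra hw'
        have hw1 : τ w = w := by rwa [Perm.notMem_support] at hw'
        have hwr : w ≠ r := by rintro rfl; exact hw' hr
        have hwj : w ≠ j := by rintro rfl; exact hw' hjs
        apply Perm.mem_support.mp hw
        rw [hκ', Perm.mul_apply, swap_apply_of_ne_of_ne hwj hwr, hw1]
    obtain ⟨q, hq, hκ⟩ := ih #κ'.support (by rw [← hn]; exact Finset.card_lt_card hsub) κ' rfl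
    have hpj : 0 < #(fib c j) := Finset.card_pos.mpr (hne j j.2)
    refine ⟨q / #(fib c j), div_pos hq (by exact_mod_cast hpj), fun κ => ?_⟩
    have key : #(fib c j) • ∑ x : Sel c T, f (κ * via c T τ x) =
        - ∑ x : Sel c T, f (κ * via c T κ' x) := by
      rw [← sum_update, ← Finset.sum_neg_distrib]
      apply Finset.sum_congr rfl
      intro x _
      have e : ∀ y : {z // z ∈ fib c j}, f (κ * via c T τ (update x j y)) =
          f ((κ * via c T κ' x) * swap y.1 (x r).1) := by
        intro y
        rw [hτ, via_mul, via_swap, via_update c T κ' x j hκj y]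
        simp only [update_self, update_of_ne hjr.symm, mul_assoc]
      rw [Finset.sum_congr rfl (fun y _ => e y)]
      rw [← htr r r.2 j j.2 (fun h => hjr (Subtype.ext h.symm)) (hmin j hjs) (x r).1 (x r).2
        (κ * via c T κ' x)]
      rw [← Finset.sum_coe_sort (fib c j)]
    have hsign : (Perm.sign τ : ℤˣ) = - Perm.sign κ' := by
      rw [hτ, Perm.sign_mul, Perm.sign_swap hjr, mul_neg_one]
    have hp' : ((#(fib c j) : ℕ) : ℚ) ≠ 0 := by exact_mod_cast hpj.ne'
    have h2 : ((#(fib c j) : ℕ) : ℚ) • ∑ x : Sel c T, f (κ * via c T τ x) =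
        ((#(fib c j) : ℕ) : ℚ) • ((((Perm.sign τ : ℤˣ) : ℤ) : ℚ) • (q / #(fib c j)) • f κ) := by
      rw [Nat.cast_smul_eq_nsmul ℚ, key, hκ, hsign]
      simp only [smul_smul, Units.val_neg, Int.cast_neg]
      rw [← neg_smul]
      congr 1
      field_simp
    have h3 := congrArg (fun z => (((#(fib c j) : ℕ) : ℚ))⁻¹ • z) h2
    simpa only [smul_smul, inv_mul_cancel₀ hp', one_smul, inv_mul_cancel_left₀ hp',
      mul_assoc] using h3

end claim

lemma sum_permOn_eq (c : ι → ι) (T : Finset ι) (x : Sel c T) (G : Perm ι → X) :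
    ∑ τ ∈ permOn (univ.image (fun w => (x w).1)), G τ = ∑ τ : Perm T, G (via c T τ x) := by
  symm
  have inj : Function.Injective (emb c T x) := (emb c T x).injective
  refine Finset.sum_nbij (fun τ => via c T τ x) ?_ ?_ ?_ ?_
  · intro τ _
    rw [mem_permOn]
    intro i hi
    apply via_apply_not
    intro w hw
    apply hi
    rw [mem_image]
    exact ⟨w, mem_univ _, hw⟩
  · intro τ _ τ' _ h
    ext w
    have h' : via c T τ x = via c T τ' x := h
    have h1 := via_apply c T τ x w
    rw [h', via_apply] at h1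
    rw [inj h1]
  · intro ρ hρ
    rw [mem_coe, mem_permOn] at hρ
    have hmem : ∀ w : T, ∃ w' : T, (x w').1 = ρ (x w).1 := by
      intro w
      by_contra hcon
      push Not at hcon
      have h1 : ρ (x w).1 ∉ univ.image (fun w => (x w).1) := by
        rw [mem_image]
        rintro ⟨w', _, hw'⟩
        exact hcon w' hw'
      have h2 := hρ _ h1
      have h3 : ρ (x w).1 = (x w).1 := ρ.injective h2
      exact hcon w h3.symm
    choose t ht using hmem
    have tinj : Function.Injective t := by
      intro w w' h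
      have h1 := ht w
      rw [h, ht w'] at h1
      exact inj (ρ.injective h1).symm
    have tbij : Function.Bijective t := Finite.injective_iff_bijective.mp tinj
    refine ⟨Equiv.ofBijective t tbij, by simp, ?_⟩
    ext i
    by_cases h : ∃ w, (x w).1 = i
    · obtain ⟨w, rfl⟩ := h
      rw [via_apply, ← ht w]
      rfl
    · push Not at h
      rw [via_apply_not c T _ x i h]
      rw [hρ i]
      rw [mem_image]
      rintro ⟨w, _, hw⟩
      exact h w hw
  · intro τ _
    rfl

/-- A nonzero translation invariant family of functions on permutations killed by all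
antisymmetrizers on `g + 1` letters contains a nonzero function invariant under the Young
subgroup of a colouring with at most `g` colours. -/
theorem exists_coloring [Module ℚ X] (M : AddSubgroup (Perm ι → X))
    (htr : ∀ f ∈ M, ∀ τ : Perm ι, (fun κ => f (κ * τ)) ∈ M) (g : ℕ)
    (hanti : ∀ f ∈ M, ∀ J : Finset ι, #J = g + 1 → ∀ κ,
      ∑ τ ∈ permOn J, ((Perm.sign τ : ℤˣ) : ℤ) • f (κ * τ) = 0)
    (hne : ∃ f ∈ M, f ≠ 0) :
    ∃ f ∈ M, f ≠ 0 ∧ ∃ c : ι → ι, #(univ.image c) ≤ g ∧ Inv c f := by
  classical
  obtain ⟨f0, hf0, hf0ne⟩ := hne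
  let S : Finset (ι → ι) := univ.filter (fun c => ∃ f ∈ M, f ≠ 0 ∧ Inv c f)
  have hS : S.Nonempty := by
    refine ⟨id, ?_⟩
    simp only [S, mem_filter, mem_univ, true_and]
    refine ⟨f0, hf0, hf0ne, ?_⟩
    intro τ hτ κ
    have : τ = 1 := by ext i; exact hτ i
    rw [this, mul_one]
  obtain ⟨c, hc, hmax⟩ := Finset.exists_max_image S pot hS
  simp only [S, mem_filter, mem_univ, true_and] at hc
  obtain ⟨f, hfM, hfne, hinv⟩ := hc
  refine ⟨f, hfM, hfne, c, ?_, hinv⟩
  by_contra hcard
  push Not at hcard
  obtain ⟨T, hTsub, hTcard⟩ := Finset.exists_subset_card_eq (show g + 1 ≤ #(univ.image c) by omega)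
  have hne' : ∀ w ∈ T, (fib c w).Nonempty := by
    intro w hw
    obtain ⟨i, _, hi⟩ := mem_image.mp (hTsub hw)
    exact ⟨i, by simp [hi]⟩
  have htrans : ∀ i ∈ T, ∀ j ∈ T, i ≠ j → #(fib c i) ≤ #(fib c j) → ∀ y ∈ fib c i, ∀ κ,
      ∑ x ∈ fib c j, f (κ * swap x y) = - f κ := by
    intro i _ j _ hij hle y hy κ
    rw [mem_fib] at hy
    have hyj : c y ≠ j := by rw [hy]; exact hij
    have hg0 : (fun κ => ∑ x ∈ insert y (fib c j), f (κ * swap x y)) = 0 := by
      by_contra hgne
      have h1 : update c y j ∈ S := by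
        simp only [S, mem_filter, mem_univ, true_and]
        refine ⟨_, ?_, hgne, transfer_inv c y j hyj f hinv⟩
        have : (fun κ => ∑ x ∈ insert y (fib c j), f (κ * swap x y)) =
            ∑ x ∈ insert y (fib c j), (fun κ => f (κ * swap x y)) := by
          ext κ; simp
        rw [this]
        exact AddSubgroup.sum_mem _ (fun x _ => htr f hfM _)
      have h2 := hmax _ h1
      have h3 := pot_lt c y j hyj (by rw [hy]; exact hle)
      omega
    have h4 := congrFun hg0 κ
    simp only [Pi.zero_apply] at h4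
    rw [Finset.sum_insert (by simp [hyj]), swap_self] at h4
    have h5 : κ * Equiv.refl ι = κ := mul_one κ
    rw [h5] at h4
    exact (neg_eq_of_add_eq_zero_right h4).symm
  choose q hq hqs using claim c T f hne' htrans
  apply hfne
  ext κ
  have hsum : ∑ x : Sel c T, ∑ τ : Perm T, ((Perm.sign τ : ℤˣ) : ℤ) • f (κ * via c T τ x) = 0 := by
    apply Finset.sum_eq_zero
    intro x _
    have hJ : #(univ.image (fun w => (x w).1)) = g + 1 := by
      rw [Finset.card_image_of_injective _ (f := fun w => (x w).1) (emb c T x).injective]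
      simp [hTcard]
    have h := hanti f hfM _ hJ κ
    rw [sum_permOn_eq c T x] at h
    rw [← h]
    apply Finset.sum_congr rfl
    intro τ _
    unfold via
    rw [Perm.viaFintypeEmbedding_sign]
  rw [Finset.sum_comm] at hsum
  have h1 : ∀ τ : Perm T, ∑ x : Sel c T, ((Perm.sign τ : ℤˣ) : ℤ) • f (κ * via c T τ x) =
      q τ • f κ := by
    intro τ
    rw [← Finset.smul_sum, hqs τ κ]
    rw [← Int.cast_smul_eq_zsmul ℚ, smul_smul, smul_smul]
    congr 1
    rcases Int.units_eq_one_or (Perm.sign τ) with h | h <;> simp [h]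
  rw [Finset.sum_congr rfl (fun τ _ => h1 τ), ← Finset.sum_smul] at hsum
  have hpos : (0 : ℚ) < ∑ τ : Perm T, q τ := by
    apply Finset.sum_pos (fun τ _ => hq τ)
    exact ⟨1, mem_univ _⟩
  rcases smul_eq_zero.mp hsum with h | h
  · exact absurd h hpos.ne'
  · simpa using h

end VC

namespace VC

open Equiv Finset Function

variable {ι : Type*} [Fintype ι] [DecidableEq ι] {X : Type*} [AddCommGroup X]

lemma sum_permOn_conj (J : Finset ι) (σ : Perm ι) (G : Perm ι → X) :
    ∑ τ ∈ permOn J, G τ = ∑ τ ∈ permOn (J.map σ.symm.toEmbedding), G (σ * τ * σ⁻¹) := by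
  refine Finset.sum_nbij' (fun τ => σ⁻¹ * τ * σ) (fun τ => σ * τ * σ⁻¹) ?_ ?_ ?_ ?_ ?_
  · intro τ hτ
    rw [mem_permOn] at hτ ⊢
    intro i hi
    have h1 : σ i ∉ J := by
      intro h
      apply hi
      rw [mem_map]
      exact ⟨σ i, h, by simp⟩
    simp [hτ _ h1]
  · intro τ hτ
    rw [mem_permOn] at hτ ⊢
    intro i hi
    have h1 : σ⁻¹ i ∉ J.map σ.symm.toEmbedding := by
      intro h
      apply hi
      rw [mem_map] at h
      obtain ⟨j, hj, hj'⟩ := h
      have : j = i := σ.symm.injective hj'
      rwa [← this]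
    simp only [Perm.mul_apply]
    rw [hτ _ h1]
    simp
  · intro τ _; simp [mul_assoc]
  · intro τ _; simp [mul_assoc]
  · intro τ _; simp [mul_assoc]

/-- The functions on permutations killed by the antisymmetrizers on `a + 1` letters. -/
def antiKilled (a : ℕ) : AddSubgroup (Perm ι → X) where
  carrier := {f | ∀ κ, ∀ J : Finset ι, #J = a + 1 →
    ∑ τ ∈ permOn J, ((Perm.sign τ : ℤˣ) : ℤ) • f (κ * τ) = 0}
  zero_mem' := by intro κ J _; simp
  add_mem' := by
    intro f g hf hg κ J hJ
    simp only [Pi.add_apply, smul_add, sum_add_distrib]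
    rw [hf κ J hJ, hg κ J hJ, add_zero]
  neg_mem' := by
    intro f hf κ J hJ
    simp only [Pi.neg_apply, smul_neg, sum_neg_distrib]
    rw [hf κ J hJ, neg_zero]

/-- The functions on permutations killed by the symmetrizers on `b + 1` letters. -/
def symKilled (b : ℕ) : AddSubgroup (Perm ι → X) where
  carrier := {f | ∀ κ, ∀ J : Finset ι, #J = b + 1 → ∑ τ ∈ permOn J, f (κ * τ) = 0}
  zero_mem' := by intro κ J _; simp
  add_mem' := by
    intro f g hf hg κ J hJ
    simp only [Pi.add_apply, sum_add_distrib]
    rw [hf κ J hJ, hg κ J hJ, add_zero]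
  neg_mem' := by
    intro f hf κ J hJ
    simp only [Pi.neg_apply, sum_neg_distrib]
    rw [hf κ J hJ, neg_zero]

lemma antiKilled_translate (a : ℕ) (f : Perm ι → X) (hf : f ∈ antiKilled a) (σ : Perm ι) :
    (fun κ => f (κ * σ)) ∈ (antiKilled a : AddSubgroup (Perm ι → X)) := by
  intro κ J hJ
  rw [sum_permOn_conj J σ]
  have h := hf (κ * σ) (J.map σ.symm.toEmbedding) (by rw [card_map, hJ])
  rw [← h]
  apply Finset.sum_congr rfl
  intro τ _
  have e : κ * (σ * τ * σ⁻¹) * σ = κ * σ * τ := by simp [mul_assoc]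
  beta_reduce
  rw [e]
  congr 1
  simp only [Perm.sign_mul, Perm.sign_inv]
  rcases Int.units_eq_one_or (Perm.sign σ) with h | h <;>
    rcases Int.units_eq_one_or (Perm.sign τ) with h' | h' <;> simp [h, h']

lemma symKilled_translate (b : ℕ) (f : Perm ι → X) (hf : f ∈ symKilled b) (σ : Perm ι) :
    (fun κ => f (κ * σ)) ∈ (symKilled b : AddSubgroup (Perm ι → X)) := by
  intro κ J hJ
  rw [sum_permOn_conj J σ]
  have h := hf (κ * σ) (J.map σ.symm.toEmbedding) (by rw [card_map, hJ])
  rw [← h]
  apply Finset.sum_congr rfl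
  intro τ _
  simp [mul_assoc]

/-- If `a * b` is less than the number of letters, then a function on the symmetric group killed
by the antisymmetrizers on `a + 1` letters and the symmetrizers on `b + 1` letters is zero. -/
theorem comb_zero [Module ℚ X] (a b : ℕ) (hcard : a * b < Fintype.card ι) (f : Perm ι → X)
    (h1 : ∀ κ, ∀ J : Finset ι, #J = a + 1 →
      ∑ τ ∈ permOn J, ((Perm.sign τ : ℤˣ) : ℤ) • f (κ * τ) = 0)
    (h2 : ∀ κ, ∀ J : Finset ι, #J = b + 1 → ∑ τ ∈ permOn J, f (κ * τ) = 0) : f = 0 := by
  by_contra hne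
  obtain ⟨f', hf', hne', c, hc, hinv⟩ := exists_coloring
    ((antiKilled a ⊓ symKilled b : AddSubgroup (Perm ι → X)))
    (fun f hf τ => ⟨antiKilled_translate a f hf.1 τ, symKilled_translate b f hf.2 τ⟩) a
    (fun f hf J hJ κ => hf.1 κ J hJ) ⟨f, ⟨h1, h2⟩, hne⟩
  obtain ⟨y, hy, hlt⟩ := Finset.exists_lt_card_fiber_of_mul_lt_card_of_maps_to
    (s := (univ : Finset ι)) (t := univ.image c) (f := c) (n := b)
    (fun i _ => mem_image_of_mem c (mem_univ i))
    (lt_of_le_of_lt (Nat.mul_le_mul_right b hc) (by simpa using hcard))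
  obtain ⟨J, hJsub, hJcard⟩ := Finset.exists_subset_card_eq (Nat.succ_le_of_lt hlt)
  apply hne'
  ext κ
  have h3 := hf'.2 κ J hJcard
  have h4 : ∀ τ ∈ permOn J, f' (κ * τ) = f' κ := by
    intro τ hτ
    rw [mem_permOn] at hτ
    apply hinv
    intro i
    by_cases hi : i ∈ J
    · have hi' : τ i ∈ J := by
        by_contra hcon
        have h5 := hτ _ hcon
        have h6 : τ i = i := τ.injective h5
        rw [h6] at hcon
        exact hcon hi
      have e1 := hJsub hi
      have e2 := hJsub hi'
      rw [mem_filter] at e1 e2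
      rw [e1.2, e2.2]
    · rw [hτ i hi]
  rw [Finset.sum_congr rfl h4, Finset.sum_const, ← Nat.cast_smul_eq_nsmul ℚ] at h3
  rcases smul_eq_zero.mp h3 with h | h
  · exfalso
    have hpos : 0 < #(permOn J) := Finset.card_pos.mpr ⟨1, by simp⟩
    exact hpos.ne' (by exact_mod_cast h)
  · simpa using h

/-- Twisted form of `exists_coloring`. -/
theorem exists_coloring_sign [Module ℚ X] (M : AddSubgroup (Perm ι → X))
    (htr : ∀ f ∈ M, ∀ τ : Perm ι, (fun κ => f (κ * τ)) ∈ M) (g : ℕ)
    (hsym : ∀ f ∈ M, ∀ J : Finset ι, #J = g + 1 → ∀ κ, ∑ τ ∈ permOn J, f (κ * τ) = 0)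
    (hne : ∃ f ∈ M, f ≠ 0) :
    ∃ f ∈ M, f ≠ 0 ∧ ∃ c : ι → ι, #(univ.image c) ≤ g ∧
      ∀ τ : Perm ι, (∀ i, c (τ i) = c i) → ∀ κ, f (κ * τ) = ((Perm.sign τ : ℤˣ) : ℤ) • f κ := by
  let tw : (Perm ι → X) →+ (Perm ι → X) :=
    { toFun := fun f κ => ((Perm.sign κ : ℤˣ) : ℤ) • f κ
      map_zero' := by ext κ; simp
      map_add' := by intro f g; ext κ; simp }
  have tw2 : ∀ f, tw (tw f) = f := by
    intro f
    ext κ
    simp only [tw, AddMonoidHom.coe_mk, ZeroHom.coe_mk, smul_smul]
    rcases Int.units_eq_one_or (Perm.sign κ) with h | h <;> simp [h]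
  obtain ⟨f, hf, hfne⟩ := hne
  obtain ⟨f', hf', hne', c, hc, hinv⟩ := exists_coloring (M.comap tw)
    (by
      intro f hf τ
      rw [AddSubgroup.mem_comap] at hf ⊢
      have h := htr _ hf τ
      have e : tw (fun κ => f (κ * τ)) = ((Perm.sign τ : ℤˣ) : ℤ) • (fun κ => tw f (κ * τ)) := by
        ext κ
        simp only [tw, AddMonoidHom.coe_mk, ZeroHom.coe_mk, Pi.smul_apply, smul_smul]
        congr 1
        rw [Perm.sign_mul]
        rcases Int.units_eq_one_or (Perm.sign κ) with h | h <;>
          rcases Int.units_eq_one_or (Perm.sign τ) with h' | h' <;> simp [h, h']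
      rw [e]
      exact AddSubgroup.zsmul_mem _ h _) g
    (by
      intro f hf J hJ κ
      rw [AddSubgroup.mem_comap] at hf
      have h := hsym _ hf J hJ κ
      have h' := congrArg (fun z => ((Perm.sign κ : ℤˣ) : ℤ) • z) h
      simp only [smul_zero, Finset.smul_sum] at h'
      rw [← h']
      apply Finset.sum_congr rfl
      intro τ _
      simp only [tw, AddMonoidHom.coe_mk, ZeroHom.coe_mk, smul_smul]
      congr 1
      rw [Perm.sign_mul]
      rcases Int.units_eq_one_or (Perm.sign κ) with h | h <;>
        rcases Int.units_eq_one_or (Perm.sign τ) with h' | h' <;> simp [h, h'])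
    ⟨tw f, by rw [AddSubgroup.mem_comap, tw2]; exact hf, by
      intro h
      apply hfne
      rw [← tw2 f, h, map_zero]⟩
  refine ⟨tw f', hf', ?_, c, hc, ?_⟩
  · intro h
    apply hne'
    rw [← tw2 f', h, map_zero]
  · intro τ hτ κ
    simp only [tw, AddMonoidHom.coe_mk, ZeroHom.coe_mk, hinv τ hτ κ, smul_smul]
    congr 1
    rw [Perm.sign_mul]
    rcases Int.units_eq_one_or (Perm.sign κ) with h | h <;>
      rcases Int.units_eq_one_or (Perm.sign τ) with h' | h' <;> simp [h, h']

end VC
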