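import Mathlib
import Pool.Agent.Helper26.VC.Defs
import Pool.Agent.Helper26.VC.Count

/-!
# Places over `t = 0` and primes of the integral closure of `k[t]`
-/

namespace VC

open Polynomial WithZero IsDedekindDomain

section ctx

variable {k F : Type*} [Field k] [Field F] [Algebra k F]
  [Algebra k[X] F] [IsScalarTower k k[X] F]

/-- The place `P` lies over `t = 0`, where `t` is the image of `X`. -/
def OverZero (P : Place k F) : Prop := algebraMap k[X] F X ∈ P.ring.nonunits

lemma poly_mem (P : Place k F) (hP : OverZero P) (p : k[X]) : algebraMap k[X] F p ∈ P.ring := by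
  induction p using Polynomial.induction_on with
  | C a =>
    have : algebraMap k[X] F (C a) = algebraMap k F a := by
      rw [IsScalarTower.algebraMap_apply k k[X] F]; rfl
    rw [this]
    exact P.algebraMap_mem a
  | add p q hp hq => rw [map_add]; exact P.ring.add_mem _ _ hp hq
  | monomial n a ih =>
    rw [pow_succ, ← mul_assoc, map_mul]
    exact P.ring.mul_mem _ _ ih (ValuationSubring.nonunits_subset hP)

lemma integral_mem (P : Place k F) (hP : OverZero P) (b : F) (hb : IsIntegral k[X] b) :
    b ∈ P.ring := by
  let f : k[X] →+* P.ring := (algebraMap k[X] F).codRestrict P.ring (poly_mem P hP)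
  obtain ⟨p, hp, hp'⟩ := hb
  have h1 : IsIntegral P.ring b := by
    refine ⟨p.map f, hp.map f, ?_⟩
    rw [Polynomial.eval₂_map]
    exact hp'
  obtain ⟨y, hy⟩ := IsIntegrallyClosed.isIntegral_iff.mp h1
  rw [← hy]
  exact y.2

variable (B : Type*) [CommRing B] [Algebra k[X] B] [Algebra B F] [IsScalarTower k[X] B F]
  [IsIntegralClosure B k[X] F]

lemma algebraMap_mem_ring (P : Place k F) (hP : OverZero P) (b : B) : algebraMap B F b ∈ P.ring :=
  integral_mem P hP _ ((IsIntegralClosure.isIntegral_iff (A := B)).mpr ⟨b, rfl⟩)

/-- The center of a place on the integral closure. -/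
def center (P : Place k F) (hP : OverZero P) : Ideal B :=
  (IsLocalRing.maximalIdeal P.ring).comap
    ((algebraMap B F).codRestrict P.ring (algebraMap_mem_ring B P hP))

lemma mem_center (P : Place k F) (hP : OverZero P) (b : B) :
    b ∈ center B P hP ↔ algebraMap B F b ∈ P.ring.nonunits := by
  unfold center
  rw [Ideal.mem_comap, ← ValuationSubring.coe_mem_nonunits_iff]
  rfl

instance (P : Place k F) (hP : OverZero P) : (center B P hP).IsPrime := by
  unfold center
  infer_instance

lemma X_mem_center (P : Place k F) (hP : OverZero P) :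
    algebraMap k[X] B X ∈ center B P hP := by
  rw [mem_center, ← IsScalarTower.algebraMap_apply]
  exact hP

instance maxX : (Ideal.span {(X : k[X])}).IsMaximal :=
  PrincipalIdealRing.isMaximal_of_irreducible Polynomial.irreducible_X

instance center_liesOver (P : Place k F) (hP : OverZero P) :
    (center B P hP).LiesOver (Ideal.span {(X : k[X])}) := by
  constructor
  have h1 : Ideal.span {(X : k[X])} ≤ (center B P hP).under k[X] := by
    rw [Ideal.span_singleton_le_iff_mem, Ideal.under_def, Ideal.mem_comap]
    exact X_mem_center B P hP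
  have h2 : (center B P hP).under k[X] ≠ ⊤ := Ideal.IsPrime.ne_top inferInstance
  exact maxX.eq_of_le h2 h1

lemma center_ne_bot [FaithfulSMul k[X] B] (P : Place k F) (hP : OverZero P) :
    center B P hP ≠ ⊥ := by
  intro h
  have h1 := X_mem_center B P hP
  rw [h, Ideal.mem_bot] at h1
  have h2 : (X : k[X]) = 0 := by
    apply FaithfulSMul.algebraMap_injective k[X] B
    rw [h1, map_zero]
  exact Polynomial.X_ne_zero h2

variable [IsDedekindDomain B] [IsFractionRing B F] [FaithfulSMul k[X] B]

/-- The height one prime of a place over `t = 0`. -/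
def hos (P : Place k F) (hP : OverZero P) : HeightOneSpectrum B :=
  ⟨center B P hP, inferInstance, center_ne_bot B P hP⟩

lemma valuationSubring_hos (P : Place k F) (hP : OverZero P) :
    ((hos B P hP).valuation F).valuationSubring = P.ring := by
  rw [← HeightOneSpectrum.valuationSubringAtPrime_eq_valuationSubring]
  apply ValuationSubring.eq_of_le_of_ne_top
  · rw [HeightOneSpectrum.valuationSubringAtPrime_eq_valuationSubring]
    intro x hx
    rw [Valuation.mem_valuationSubring_iff] at hx
    obtain ⟨n, d, hnd⟩ := HeightOneSpectrum.exists_primeCompl_mul_eq_of_integer (hos B P hP) x hx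
    have hd : algebraMap B F d ∉ P.ring.nonunits := by
      rw [← mem_center B P hP]
      exact d.2
    have hd0 : algebraMap B F d ≠ 0 := by
      intro h
      rw [h] at hd
      exact hd ((ValuationSubring.mem_nonunits_iff_or _).mpr (Or.inl rfl))
    have hdinv : (algebraMap B F d)⁻¹ ∈ P.ring := by
      by_contra hcon
      exact hd ((ValuationSubring.mem_nonunits_iff_or _).mpr (Or.inr hcon))
    have hx' : x = algebraMap B F n * (algebraMap B F d)⁻¹ := by
      rw [← hnd, mul_assoc, mul_inv_cancel₀ hd0, mul_one]
    rw [hx']
    exact P.ring.mul_mem _ _ (algebraMap_mem_ring B P hP n) hdinv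
  · exact P.ne_top

lemma center_injective (P P' : Place k F) (hP : OverZero P) (hP' : OverZero P')
    (h : center B P hP = center B P' hP') : P = P' := by
  have h1 : hos B P hP = hos B P' hP' := by
    ext1
    exact h
  have h2 := valuationSubring_hos B P hP
  rw [h1, valuationSubring_hos B P' hP'] at h2
  ext1
  exact h2.symm

/-- The place attached to a prime over `t = 0`. -/
noncomputable def placeOfPrime [Algebra k B] [IsScalarTower k B F] (v : HeightOneSpectrum B) :
    Place k F where
  ring := (v.valuation F).valuationSubring
  algebraMap_mem := by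
    intro a
    rw [Valuation.mem_valuationSubring_iff, IsScalarTower.algebraMap_apply k B F]
    exact v.valuation_le_one _
  ne_top := by
    simp only [ne_eq, Valuation.valuationSubring_eq_top_iff, not_not]
    infer_instance

omit [IsScalarTower k k[X] F] [IsIntegralClosure B k[X] F] [FaithfulSMul k[X] B] in
lemma placeOfPrime_overZero [Algebra k B] [IsScalarTower k B F] (v : HeightOneSpectrum B)
    (hv : algebraMap k[X] B X ∈ v.asIdeal) : OverZero (placeOfPrime (k := k) (F := F) B v) := by
  change algebraMap k[X] F X ∈ ((v.valuation F).valuationSubring).nonunits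
  rw [mem_nonunits_of_valuation (w := v.valuation F) rfl, IsScalarTower.algebraMap_apply k[X] B F,
    HeightOneSpectrum.valuation_lt_one_iff_mem]
  exact hv

/-- The order of `t` at a place over `t = 0` is the ramification index of its center. -/
lemma ord_X (P : Place k F) (hP : OverZero P) :
    ord P.ring (algebraMap k[X] F X) =
      ((center B P hP).ramificationIdx k[X] : ℤ) := by
  have hw := valuationSubring_hos B P hP
  obtain ⟨π, hπ⟩ := (hos B P hP).valuation_exists_uniformizer F
  have hX0 : algebraMap k[X] F X ≠ 0 := by
    rw [IsScalarTower.algebraMap_apply k[X] B F]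
    intro h
    have h1 : algebraMap k[X] B X = 0 := by
      apply IsFractionRing.injective B F
      rw [h, map_zero]
    have h2 : (X : k[X]) = 0 := by
      apply FaithfulSMul.algebraMap_injective k[X] B
      rw [h1, map_zero]
    exact Polynomial.X_ne_zero h2
  have h1 := valuation_eq_exp_ord hw hπ hX0
  let v0 : HeightOneSpectrum k[X] := ⟨Ideal.span {X}, maxX.isPrime, by
    rw [Ne, Ideal.span_singleton_eq_bot]; exact Polynomial.X_ne_zero⟩
  have h2 : v0.intValuation X = exp (-1 : ℤ) :=
    HeightOneSpectrum.intValuation_singleton v0 Polynomial.X_ne_zero rfl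
  have : (hos B P hP).asIdeal.LiesOver v0.asIdeal := center_liesOver B P hP
  have h3 := HeightOneSpectrum.intValuation_liesOver v0 (hos B P hP) X
  have h5 : (hos B P hP).valuation F (algebraMap B F (algebraMap k[X] B X)) =
      (hos B P hP).intValuation (algebraMap k[X] B X) :=
    HeightOneSpectrum.valuation_of_algebraMap _ _
  rw [h2, ← h5, ← IsScalarTower.algebraMap_apply,
    h1, ← exp_nsmul, exp_inj] at h3
  have h4 : v0.asIdeal.ramificationIdx' (hos B P hP).asIdeal =
      (center B P hP).ramificationIdx k[X] :=
    Ideal.ramificationIdx'_eq_ramificationIdx v0.asIdeal (center B P hP) v0.ne_bot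
  rw [h4] at h3
  simp only [smul_neg, nsmul_eq_mul, mul_one, neg_inj] at h3
  exact h3.symm

end ctx

end VC
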