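import Mathlib
import Pool.Agent.Helper26.VC.Main1

/-!
# The counting theorem for function fields
-/

namespace VC

open Polynomial IntermediateField

section struct

variable {k F : Type*} [Field k] [Field F] [Algebra k F] (t : F) (ht : Transcendental k t)

/-- the structure of an algebra over the rational functions given by a transcendental element -/
@[reducible] noncomputable def ratAlg : Algebra (RatFunc k) F :=
  ((algebraMap k⟮t⟯ F).comp (RatFunc.algEquivOfTranscendental t ht).toRingEquiv.toRingHom).toAlgebra

/-- the structure of an algebra over the polynomials given by an element -/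
@[reducible] noncomputable def polyAlg : Algebra k[X] F := ((aeval t : k[X] →ₐ[k] F) : k[X] →+* F).toAlgebra

lemma ratAlg_poly (p : k[X]) : (ratAlg t ht).algebraMap (algebraMap k[X] (RatFunc k) p) =
    aeval t p := by
  change (algebraMap k⟮t⟯ F) (RatFunc.algEquivOfTranscendental t ht (algebraMap k[X] (RatFunc k) p)) = _
  rw [RatFunc.algEquivOfTranscendental_algebraMap, ← Polynomial.aeval_algebraMap_apply,
    IntermediateField.AdjoinSimple.algebraMap_gen]

end struct

section main

variable {k F K : Type*} [Field k] [IsAlgClosed k] [CharZero k]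
  [Field F] [Algebra k F] [Field K] [Algebra k K] [Algebra F K] [IsScalarTower k F K]

theorem card_embeddings_t (t : F) (ht : Transcendental k t) (hF : FiniteDimensional k⟮t⟯ F)
    (G : Type*) [Group G] [Finite G] [MulSemiringAction G K]
    (hG : IsGaloisGroup G k⟮algebraMap F K t⟯ K)
    (v : Place k K) (hv : algebraMap F K t ∈ v.ring.nonunits)
    (P : Place k F) (hP : t ∈ P.ring.nonunits) :
    (Nat.card {φ : F →ₐ[k] K // φ t = algebraMap F K t ∧ v.ring.comap φ.toRingHom = P.ring} : ℤ) =
      ord P.ring t := by
  have htK : Transcendental k (algebraMap F K t) :=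
    (transcendental_algebraMap_iff (algebraMap F K).injective).mpr ht
  let i1 : Algebra k[X] F := polyAlg t
  let i2 : Algebra k[X] K := polyAlg (algebraMap F K t)
  let i3 : Algebra (RatFunc k) F := ratAlg t ht
  let i4 : Algebra (RatFunc k) K := ratAlg (algebraMap F K t) htK
  have s1 : IsScalarTower k k[X] F := IsScalarTower.of_algebraMap_eq (fun x =>
    (aeval t : k[X] →ₐ[k] F).commutes x |>.symm)
  have s2 : IsScalarTower k k[X] K := IsScalarTower.of_algebraMap_eq (fun x =>
    (aeval (algebraMap F K t) : k[X] →ₐ[k] K).commutes x |>.symm)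
  have s3 : IsScalarTower k[X] (RatFunc k) F := IsScalarTower.of_algebraMap_eq (fun x =>
    (ratAlg_poly t ht x).symm)
  have s4 : IsScalarTower k[X] (RatFunc k) K := IsScalarTower.of_algebraMap_eq (fun x =>
    (ratAlg_poly (algebraMap F K t) htK x).symm)
  have s5 : IsScalarTower k[X] F K := IsScalarTower.of_algebraMap_eq (fun x => by
    change aeval (algebraMap F K t) x = algebraMap F K (aeval t x)
    rw [Polynomial.aeval_algebraMap_apply])
  have s6 : IsScalarTower (RatFunc k) F K := by
    apply IsScalarTower.of_algebraMap_eq'
    apply IsFractionRing.ringHom_ext (A := k[X])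
    intro x
    rw [RingHom.comp_apply, ← IsScalarTower.algebraMap_apply k[X] (RatFunc k) K,
      ← IsScalarTower.algebraMap_apply k[X] (RatFunc k) F, ← IsScalarTower.algebraMap_apply]
  have s7 : IsScalarTower k (RatFunc k) F := IsScalarTower.of_algebraMap_eq (fun x => by
    rw [IsScalarTower.algebraMap_apply k k[X] (RatFunc k), ← IsScalarTower.algebraMap_apply
      k[X] (RatFunc k) F, ← IsScalarTower.algebraMap_apply k k[X] F])
  have s8 : IsScalarTower k (RatFunc k) K := IsScalarTower.of_algebraMap_eq (fun x => by
    rw [IsScalarTower.algebraMap_apply k k[X] (RatFunc k), ← IsScalarTower.algebraMap_apply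
      k[X] (RatFunc k) K, ← IsScalarTower.algebraMap_apply k k[X] K])
  have f1 : FiniteDimensional (RatFunc k) F := by
    refine Module.Finite.of_equiv_equiv (RatFunc.algEquivOfTranscendental t ht).symm.toRingEquiv
      (RingEquiv.refl F) ?_
    ext x
    change algebraMap k⟮t⟯ F (RatFunc.algEquivOfTranscendental t ht
      ((RatFunc.algEquivOfTranscendental t ht).symm x)) = algebraMap k⟮t⟯ F x
    rw [AlgEquiv.apply_symm_apply]
  have g1 : IsGaloisGroup G (RatFunc k) K :=
    IsGaloisGroup.of_ringEquiv G k⟮algebraMap F K t⟯ (RatFunc k) K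
      (RatFunc.algEquivOfTranscendental (algebraMap F K t) htK).symm.toRingEquiv (by
        intro x
        change algebraMap k⟮algebraMap F K t⟯ K (RatFunc.algEquivOfTranscendental
          (algebraMap F K t) htK ((RatFunc.algEquivOfTranscendental (algebraMap F K t) htK).symm x))
          = _
        rw [AlgEquiv.apply_symm_apply])
  have f2 : FiniteDimensional (RatFunc k) K := IsGaloisGroup.finiteDimensional G (RatFunc k) K
  have g2 : IsGalois (RatFunc k) K := IsGaloisGroup.isGalois G (RatFunc k) K
  have hX : algebraMap k[X] F X = t := by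
    change aeval t X = t
    simp
  have hXK : algebraMap k[X] K X = algebraMap F K t := by
    change aeval (algebraMap F K t) X = algebraMap F K t
    simp
  have key := card_embeddings_place (k := k) (F := F) (K := K) v
    (by unfold OverZero; rw [hXK]; exact hv) P (by unfold OverZero; rw [hX]; exact hP)
  rw [hX] at key
  rw [← key]
  congr 1
  refine Nat.card_congr ⟨fun φ => ⟨⟨φ.1.toRingHom, ?_⟩, φ.2.2⟩, fun φ =>
    ⟨φ.1.restrictScalars k, ?_, φ.2⟩, ?_, ?_⟩
  · intro r
    have h : (φ.1.toRingHom.comp (algebraMap (RatFunc k) F)) = algebraMap (RatFunc k) K := by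
      apply IsFractionRing.ringHom_ext (A := k[X])
      intro x
      rw [RingHom.comp_apply, ← IsScalarTower.algebraMap_apply k[X] (RatFunc k) K,
        ← IsScalarTower.algebraMap_apply k[X] (RatFunc k) F]
      change φ.1 (aeval t x) = aeval (algebraMap F K t) x
      rw [← Polynomial.aeval_algHom_apply, φ.2.1]
    exact congrArg (fun f => f r) h
  · have h1 := φ.1.commutes (algebraMap k[X] (RatFunc k) X)
    rw [← IsScalarTower.algebraMap_apply, ← IsScalarTower.algebraMap_apply, hX, hXK] at h1
    exact h1
  · intro φ; rfl
  · intro φ; rfl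

end main

end VC
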