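import Mathlib
import Pool.Agent.Helper26.VC.Main2

/-!
# General facts on places of function fields
-/

namespace VC

open Polynomial IntermediateField WithZero IsDedekindDomain

section alg

variable {k F : Type*} [Field k] [Field F] [Algebra k F]

lemma finiteDimensional_ratAlg (t : F) (ht : Transcendental k t)
    (hF : FiniteDimensional k⟮t⟯ F) : @FiniteDimensional (RatFunc k) F _ _ (ratAlg t ht).toModule := by
  let i3 : Algebra (RatFunc k) F := ratAlg t ht
  refine Module.Finite.of_equiv_equiv (RatFunc.algEquivOfTranscendental t ht).symm.toRingEquiv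
      (RingEquiv.refl F) ?_
  ext x
  change algebraMap k⟮t⟯ F (RatFunc.algEquivOfTranscendental t ht
    ((RatFunc.algEquivOfTranscendental t ht).symm x)) = algebraMap k⟮t⟯ F x
  rw [AlgEquiv.apply_symm_apply]

theorem IsFunctionField.finiteDimensional (h : IsFunctionField k F) {y : F}
    (hy : Transcendental k y) : FiniteDimensional k⟮y⟯ F := by
  obtain ⟨t, ht, hfin⟩ := h
  let i1 : Algebra k[X] F := polyAlg t
  let i3 : Algebra (RatFunc k) F := ratAlg t ht
  have s1 : IsScalarTower k k[X] F := IsScalarTower.of_algebraMap_eq (fun x =>
    (aeval t : k[X] →ₐ[k] F).commutes x |>.symm)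
  have s3 : IsScalarTower k[X] (RatFunc k) F := IsScalarTower.of_algebraMap_eq (fun x =>
    (ratAlg_poly t ht x).symm)
  have s7 : IsScalarTower k (RatFunc k) F := IsScalarTower.of_algebraMap_eq (fun x => by
    rw [IsScalarTower.algebraMap_apply k k[X] (RatFunc k), ← IsScalarTower.algebraMap_apply
      k[X] (RatFunc k) F, ← IsScalarTower.algebraMap_apply k k[X] F])
  have : FunctionField k F := finiteDimensional_ratAlg t ht hfin
  exact FunctionField.finiteDimensional_of_adjoin_transcendental hy

/-- An extension of function fields of one variable over the same `k` is finite. -/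
theorem finite_of_isFunctionField {K : Type*} [Field K] [Algebra k K] [Algebra F K]
    [IsScalarTower k F K] (hF : IsFunctionField k F) (hK : IsFunctionField k K) :
    Module.Finite F K := by
  obtain ⟨t, ht, hfin⟩ := hF
  have htK : Transcendental k (algebraMap F K t) :=
    (transcendental_algebraMap_iff (algebraMap F K).injective).mpr ht
  have hfinK := hK.finiteDimensional htK
  let i3 : Algebra (RatFunc k) F := ratAlg t ht
  let i4 : Algebra (RatFunc k) K := ratAlg (algebraMap F K t) htK
  have hfK : FiniteDimensional (RatFunc k) K := finiteDimensional_ratAlg _ htK hfinK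
  have s6 : IsScalarTower (RatFunc k) F K := by
    apply IsScalarTower.of_algebraMap_eq'
    apply IsFractionRing.ringHom_ext (A := k[X])
    intro x
    rw [RingHom.comp_apply]
    change (ratAlg (algebraMap F K t) htK).algebraMap (algebraMap k[X] (RatFunc k) x) =
      algebraMap F K ((ratAlg t ht).algebraMap (algebraMap k[X] (RatFunc k) x))
    rw [ratAlg_poly, ratAlg_poly, Polynomial.aeval_algebraMap_apply]
  exact Module.Finite.of_restrictScalars_finite (RatFunc k) F K

lemma comap_ne_top {K : Type*} [Field K] [Algebra k K] (hF : IsFunctionField k F)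
    (hK : IsFunctionField k K) (φ : F →ₐ[k] K) (R : ValuationSubring K) (hR : R ≠ ⊤) :
    R.comap φ.toRingHom ≠ ⊤ := by
  intro htop
  let i : Algebra F K := φ.toRingHom.toAlgebra
  have s : IsScalarTower k F K := IsScalarTower.of_algebraMap_eq (fun x => (φ.commutes x).symm)
  have hfin : Module.Finite F K := finite_of_isFunctionField hF hK
  apply hR
  rw [eq_top_iff]
  intro x _
  have hmem : ∀ y : F, φ.toRingHom y ∈ R := by
    intro y
    rw [← ValuationSubring.mem_comap, htop]
    exact ValuationSubring.mem_top y
  let f : F →+* R := φ.toRingHom.codRestrict R hmem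
  obtain ⟨p, hp, hp'⟩ := Algebra.IsIntegral.isIntegral (R := F) x
  have h1 : IsIntegral R x := by
    refine ⟨p.map f, hp.map f, ?_⟩
    rw [Polynomial.eval₂_map]
    exact hp'
  obtain ⟨y, hy⟩ := IsIntegrallyClosed.isIntegral_iff.mp h1
  rw [← hy]
  exact y.2

/-- The place below a place in an extension of function fields: the image of a point under the
morphism of curves given by an embedding of function fields. -/
def Place.comap {K : Type*} [Field K] [Algebra k K] (hF : IsFunctionField k F)
    (hK : IsFunctionField k K) (φ : F →ₐ[k] K) (v : Place k K) : Place k F where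
  ring := v.ring.comap φ.toRingHom
  algebraMap_mem := by
    intro a
    rw [ValuationSubring.mem_comap]
    have : φ.toRingHom (algebraMap k F a) = algebraMap k K a := φ.commutes a
    rw [this]
    exact v.algebraMap_mem a
  ne_top := comap_ne_top hF hK φ v.ring v.ne_top

end alg

section closed

variable {k F : Type*} [Field k] [IsAlgClosed k] [Field F] [Algebra k F]

lemma transcendental_of_mem_nonunits (P : Place k F) {t : F} (ht0 : t ≠ 0)
    (ht : t ∈ P.ring.nonunits) : Transcendental k t := by
  intro halg
  have hint : IsIntegral k t := halg.isIntegral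
  obtain ⟨b, hb⟩ : ∃ b : k, algebraMap k F b = t := by
    have hdeg := IsAlgClosed.degree_eq_one_of_irreducible k (minpoly.irreducible hint)
    exact (minpoly.mem_range_of_degree_eq_one k t hdeg)
  rcases (ValuationSubring.mem_nonunits_iff_or _).mp ht with h | h
  · exact ht0 h
  · apply h
    rw [← hb, ← map_inv₀]
    exact P.algebraMap_mem _

variable [CharZero k]

/-- Every place of a function field comes from a discrete valuation. -/
theorem exists_valuation (hF : IsFunctionField k F) (P : Place k F) :
    ∃ w : Valuation F (WithZero (Multiplicative ℤ)), w.valuationSubring = P.ring ∧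
      ∃ π, w π = exp (-1 : ℤ) := by
  obtain ⟨x, hx⟩ : ∃ x : F, x ∉ P.ring := by
    by_contra hcon
    push Not at hcon
    exact P.ne_top (eq_top_iff.mpr (fun x _ => hcon x))
  have hx0 : x ≠ 0 := by
    rintro rfl
    exact hx P.ring.zero_mem
  set t := x⁻¹ with htdef
  have ht : t ∈ P.ring.nonunits := by
    rw [htdef, ValuationSubring.inv_mem_nonunits_iff]
    exact Or.inr hx
  have htr : Transcendental k t := transcendental_of_mem_nonunits P (inv_ne_zero hx0) ht
  have hfin := hF.finiteDimensional htr
  let i1 : Algebra k[X] F := polyAlg t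
  let i3 : Algebra (RatFunc k) F := ratAlg t htr
  have s1 : IsScalarTower k k[X] F := IsScalarTower.of_algebraMap_eq (fun x =>
    (aeval t : k[X] →ₐ[k] F).commutes x |>.symm)
  have s3 : IsScalarTower k[X] (RatFunc k) F := IsScalarTower.of_algebraMap_eq (fun x =>
    (ratAlg_poly t htr x).symm)
  have f1 : FiniteDimensional (RatFunc k) F := finiteDimensional_ratAlg t htr hfin
  have hc0 : CharZero (RatFunc k) := charZero_of_injective_algebraMap (algebraMap k (RatFunc k)).injective
  have hBd : IsDedekindDomain (integralClosure k[X] F) :=
    integralClosure.isDedekindDomain k[X] (RatFunc k) F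
  have hBf : IsFractionRing (integralClosure k[X] F) F :=
    integralClosure.isFractionRing_of_finite_extension (RatFunc k) F
  have f1 : FaithfulSMul k[X] (integralClosure k[X] F) := by
    rw [faithfulSMul_iff_algebraMap_injective]
    intro x y hxy
    have h := congrArg (algebraMap (integralClosure k[X] F) F) hxy
    rw [← IsScalarTower.algebraMap_apply, ← IsScalarTower.algebraMap_apply,
      IsScalarTower.algebraMap_apply k[X] (RatFunc k) F,
      IsScalarTower.algebraMap_apply k[X] (RatFunc k) F] at h
    exact IsFractionRing.injective k[X] (RatFunc k) ((algebraMap (RatFunc k) F).injective h)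
  have hP : OverZero P := by
    unfold OverZero
    have : algebraMap k[X] F X = t := by
      change aeval t X = t
      simp
    rw [this]
    exact ht
  exact ⟨(hos (integralClosure k[X] F) P hP).valuation F,
    valuationSubring_hos (integralClosure k[X] F) P hP,
    (hos (integralClosure k[X] F) P hP).valuation_exists_uniformizer F⟩

lemma ord_nonneg_iff (hF : IsFunctionField k F) (P : Place k F) {f : F} (hf : f ≠ 0) :
    0 ≤ ord P.ring f ↔ f ∈ P.ring := by
  obtain ⟨w, hw, π, hπ⟩ := exists_valuation hF P
  rw [← hw, Valuation.mem_valuationSubring_iff, hw, valuation_eq_exp_ord hw hπ hf, ← exp_zero,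
    exp_le_exp]
  omega

lemma ord_pos_iff (hF : IsFunctionField k F) (P : Place k F) {f : F} (hf : f ≠ 0) :
    0 < ord P.ring f ↔ f ∈ P.ring.nonunits := by
  obtain ⟨w, hw, π, hπ⟩ := exists_valuation hF P
  rw [mem_nonunits_of_valuation hw, valuation_eq_exp_ord hw hπ hf, ← exp_zero, exp_lt_exp]
  omega

lemma ord_mul (hF : IsFunctionField k F) (P : Place k F) {f g : F} (hf : f ≠ 0) (hg : g ≠ 0) :
    ord P.ring (f * g) = ord P.ring f + ord P.ring g := by
  obtain ⟨w, hw, π, hπ⟩ := exists_valuation hF P
  have h := map_mul w f g
  rw [valuation_eq_exp_ord hw hπ hf, valuation_eq_exp_ord hw hπ hg,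
    valuation_eq_exp_ord hw hπ (mul_ne_zero hf hg), ← exp_add, exp_inj] at h
  omega

lemma ord_one (hF : IsFunctionField k F) (P : Place k F) : ord P.ring (1 : F) = 0 := by
  have h := ord_mul hF P (one_ne_zero (α := F)) (one_ne_zero (α := F))
  rw [mul_one] at h
  omega

lemma ord_inv (hF : IsFunctionField k F) (P : Place k F) {f : F} (hf : f ≠ 0) :
    ord P.ring f⁻¹ = - ord P.ring f := by
  have h := ord_mul hF P hf (inv_ne_zero hf)
  rw [mul_inv_cancel₀ hf, ord_one hF P] at h
  omega

lemma ord_algebraMap (hF : IsFunctionField k F) (P : Place k F) {a : k} (ha : a ≠ 0) :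
    ord P.ring (algebraMap k F a) = 0 := by
  have ha' : algebraMap k F a ≠ 0 := (_root_.map_ne_zero _).mpr ha
  have h1 := (ord_nonneg_iff hF P ha').mpr (P.algebraMap_mem a)
  have h2 := (ord_nonneg_iff hF P (f := (algebraMap k F a)⁻¹) (inv_ne_zero ha')).mpr (by
    rw [← map_inv₀]; exact P.algebraMap_mem _)
  rw [ord_inv hF P ha'] at h2
  omega

/-- A transcendental function has a zero. -/
theorem exists_place (hF : IsFunctionField k F) {t : F} (htr : Transcendental k t) :
    ∃ P : Place k F, t ∈ P.ring.nonunits := by
  have hfin := hF.finiteDimensional htr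
  let i1 : Algebra k[X] F := polyAlg t
  let i3 : Algebra (RatFunc k) F := ratAlg t htr
  have s1 : IsScalarTower k k[X] F := IsScalarTower.of_algebraMap_eq (fun x =>
    (aeval t : k[X] →ₐ[k] F).commutes x |>.symm)
  have s3 : IsScalarTower k[X] (RatFunc k) F := IsScalarTower.of_algebraMap_eq (fun x =>
    (ratAlg_poly t htr x).symm)
  have f1 : FiniteDimensional (RatFunc k) F := finiteDimensional_ratAlg t htr hfin
  have hc0 : CharZero (RatFunc k) := charZero_of_injective_algebraMap (algebraMap k (RatFunc k)).injective
  have hBd : IsDedekindDomain (integralClosure k[X] F) :=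
    integralClosure.isDedekindDomain k[X] (RatFunc k) F
  have hBf : IsFractionRing (integralClosure k[X] F) F :=
    integralClosure.isFractionRing_of_finite_extension (RatFunc k) F
  have f1 : FaithfulSMul k[X] (integralClosure k[X] F) := by
    rw [faithfulSMul_iff_algebraMap_injective]
    intro x y hxy
    have h := congrArg (algebraMap (integralClosure k[X] F) F) hxy
    rw [← IsScalarTower.algebraMap_apply, ← IsScalarTower.algebraMap_apply,
      IsScalarTower.algebraMap_apply k[X] (RatFunc k) F,
      IsScalarTower.algebraMap_apply k[X] (RatFunc k) F] at h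
    exact IsFractionRing.injective k[X] (RatFunc k) ((algebraMap (RatFunc k) F).injective h)
  have hX : algebraMap k[X] F X = t := by
    change aeval t X = t
    simp
  obtain ⟨Q, hQ⟩ : Nonempty ((Ideal.span {(X : k[X])}).primesOver (integralClosure k[X] F)) :=
    inferInstance
  have hQp := hQ.1
  have hQo := hQ.2
  have hXQ : algebraMap k[X] (integralClosure k[X] F) X ∈ Q := by
    have h1 : (X : k[X]) ∈ Q.under k[X] := by
      rw [← hQo.over]
      exact Ideal.mem_span_singleton_self _
    exact h1
  have hXne : algebraMap k[X] (integralClosure k[X] F) X ≠ 0 := by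
    intro h
    have h2 : (X : k[X]) = 0 := by
      apply FaithfulSMul.algebraMap_injective k[X] (integralClosure k[X] F)
      rw [h, map_zero]
    exact Polynomial.X_ne_zero h2
  let v : HeightOneSpectrum (integralClosure k[X] F) := ⟨Q, hQp, by
    rintro rfl
    exact hXne (Ideal.mem_bot.mp hXQ)⟩
  refine ⟨placeOfPrime (k := k) (F := F) (integralClosure k[X] F) v, ?_⟩
  have h := placeOfPrime_overZero (k := k) (F := F) (integralClosure k[X] F) v hXQ
  unfold OverZero at h
  rwa [hX] at h

/-- A transcendental function has finitely many zeros. -/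
theorem finite_zeros (hF : IsFunctionField k F) {t : F} (htr : Transcendental k t) :
    {P : Place k F | t ∈ P.ring.nonunits}.Finite := by
  have hfin := hF.finiteDimensional htr
  let i1 : Algebra k[X] F := polyAlg t
  let i3 : Algebra (RatFunc k) F := ratAlg t htr
  have s1 : IsScalarTower k k[X] F := IsScalarTower.of_algebraMap_eq (fun x =>
    (aeval t : k[X] →ₐ[k] F).commutes x |>.symm)
  have s3 : IsScalarTower k[X] (RatFunc k) F := IsScalarTower.of_algebraMap_eq (fun x =>
    (ratAlg_poly t htr x).symm)
  have f1 : FiniteDimensional (RatFunc k) F := finiteDimensional_ratAlg t htr hfin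
  have hc0 : CharZero (RatFunc k) := charZero_of_injective_algebraMap (algebraMap k (RatFunc k)).injective
  have hBd : IsDedekindDomain (integralClosure k[X] F) :=
    integralClosure.isDedekindDomain k[X] (RatFunc k) F
  have hBf : IsFractionRing (integralClosure k[X] F) F :=
    integralClosure.isFractionRing_of_finite_extension (RatFunc k) F
  have hBfin : Module.Finite k[X] (integralClosure k[X] F) :=
    IsIntegralClosure.finite k[X] (RatFunc k) F (integralClosure k[X] F)
  have f1 : FaithfulSMul k[X] (integralClosure k[X] F) := by
    rw [faithfulSMul_iff_algebraMap_injective]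
    intro x y hxy
    have h := congrArg (algebraMap (integralClosure k[X] F) F) hxy
    rw [← IsScalarTower.algebraMap_apply, ← IsScalarTower.algebraMap_apply,
      IsScalarTower.algebraMap_apply k[X] (RatFunc k) F,
      IsScalarTower.algebraMap_apply k[X] (RatFunc k) F] at h
    exact IsFractionRing.injective k[X] (RatFunc k) ((algebraMap (RatFunc k) F).injective h)
  have hX : algebraMap k[X] F X = t := by
    change aeval t X = t
    simp
  have hov : ∀ P : Place k F, t ∈ P.ring.nonunits → OverZero P := by
    intro P hP
    unfold OverZero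
    rw [hX]
    exact hP
  have hfinp : Finite ((Ideal.span {(X : k[X])}).primesOver (integralClosure k[X] F)) :=
    Algebra.QuasiFinite.finite_primesOver _
  rw [← Set.finite_coe_iff]
  let g : {P : Place k F | t ∈ P.ring.nonunits} →
      (Ideal.span {(X : k[X])}).primesOver (integralClosure k[X] F) :=
    fun P => ⟨center (integralClosure k[X] F) P.1 (hov P.1 P.2), inferInstance, inferInstance⟩
  refine Finite.of_injective g ?_
  intro P P' h
  apply Subtype.ext
  apply center_injective (integralClosure k[X] F) P.1 P'.1 (hov P.1 P.2) (hov P'.1 P'.2)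
  exact congrArg Subtype.val h

end closed

end VC
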