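import Mathlib
import Pool.Agent.Helper26.VC.Main3

/-!
# Galois covers and fibres of a function
-/

namespace VC

open Polynomial IntermediateField WithZero IsDedekindDomain

section

variable {k F K : Type*} [Field k] [IsAlgClosed k] [CharZero k]
  [Field F] [Algebra k F] [Field K] [Algebra k K] [Algebra F K] [IsScalarTower k F K]

omit [IsAlgClosed k] [CharZero k] in
lemma finite_homs (t : F) (hF : FiniteDimensional k⟮t⟯ F) :
    Finite {φ : F →ₐ[k] K // φ t = algebraMap F K t} := by
  have key : ∀ φ : F →ₐ[k] K, φ t = algebraMap F K t → ∀ x : k⟮t⟯,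
      φ (algebraMap k⟮t⟯ F x) = algebraMap k⟮t⟯ K x := by
    intro φ hφ x
    obtain ⟨x, h2⟩ := x
    change φ x = algebraMap F K x
    induction h2 using IntermediateField.adjoin_induction with
    | mem y hy =>
      rw [Set.mem_singleton_iff] at hy
      rw [hy, hφ]
    | algebraMap a => rw [φ.commutes, ← IsScalarTower.algebraMap_apply]
    | add y z _ _ hy hz => rw [map_add, map_add, hy, hz]
    | inv y _ hy => rw [map_inv₀, map_inv₀, hy]
    | mul y z _ _ hy hz => rw [map_mul, map_mul, hy, hz]
  let g : {φ : F →ₐ[k] K // φ t = algebraMap F K t} → (F →ₐ[k⟮t⟯] K) := fun φ =>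
    { φ.1.toRingHom with commutes' := key φ.1 φ.2 }
  refine Finite.of_injective g ?_
  intro φ ψ h
  apply Subtype.ext
  ext x
  have : g φ x = g ψ x := by rw [h]
  exact this

open Classical in
/-- Counting for all places. -/
theorem card_cover (hF : IsFunctionField k F) (hK : IsFunctionField k K)
    (t : F) (ht : Transcendental k t)
    (G : Type*) [Group G] [Finite G] [MulSemiringAction G K]
    (hG : IsGaloisGroup G k⟮algebraMap F K t⟯ K)
    (v : Place k K) (hv : algebraMap F K t ∈ v.ring.nonunits) (P : Place k F) :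
    (Nat.card {φ : F →ₐ[k] K // φ t = algebraMap F K t ∧ Place.comap hF hK φ v = P} : ℤ) =
      max (ord P.ring t) 0 := by
  have ht0 : t ≠ 0 := by
    rintro rfl
    exact ht (isAlgebraic_zero)
  have hiff : ∀ φ : F →ₐ[k] K, Place.comap hF hK φ v = P ↔ v.ring.comap φ.toRingHom = P.ring := by
    intro φ
    constructor
    · intro h; rw [← h]; rfl
    · intro h
      ext1
      exact h
  by_cases hP : t ∈ P.ring.nonunits
  · have h1 := card_embeddings_t (K := K) t ht (hF.finiteDimensional ht) G hG v hv P hP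
    have h2 := (ord_pos_iff hF P ht0).mpr hP
    rw [max_eq_left h2.le, ← h1]
    congr 1
    apply Nat.card_congr
    apply Equiv.subtypeEquivRight
    intro φ
    rw [hiff]
  · have h2 : ¬ (0 < ord P.ring t) := fun h => hP ((ord_pos_iff hF P ht0).mp h)
    rw [max_eq_right (not_lt.mp h2)]
    have : IsEmpty {φ : F →ₐ[k] K // φ t = algebraMap F K t ∧ Place.comap hF hK φ v = P} := by
      constructor
      rintro ⟨φ, hφ, hφ'⟩
      rw [hiff] at hφ'
      apply hP
      rw [← hφ', mem_nonunits_comap]
      change φ t ∈ _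
      rw [hφ]
      exact hv
    rw [Nat.card_of_isEmpty]
    rfl

/-- The degree of the divisor of zeros of a function on a Galois cover of the line. -/
theorem sum_ord_galois (hK : IsFunctionField k K) (t : K) (ht : Transcendental k t)
    (G : Type*) [Group G] [Finite G] [MulSemiringAction G K]
    (hG : IsGaloisGroup G k⟮t⟯ K) :
    ∑ᶠ v : Place k K, max (ord v.ring t) 0 = (Nat.card {φ : K →ₐ[k] K // φ t = t} : ℤ) := by
  classical
  have ht0 : t ≠ 0 := by
    rintro rfl
    exact ht (isAlgebraic_zero)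
  obtain ⟨v, hv⟩ := exists_place hK ht
  have hfin := finite_zeros hK ht
  have hfinhom : Finite {φ : K →ₐ[k] K // φ t = t} :=
    finite_homs (K := K) t (hK.finiteDimensional ht)
  have : Fintype {φ : K →ₐ[k] K // φ t = t} := Fintype.ofFinite _
  have h1 : ∀ P : Place k K, max (ord P.ring t) 0 =
      ∑ φ : {φ : K →ₐ[k] K // φ t = t}, if Place.comap hK hK φ.1 v = P then (1 : ℤ) else 0 := by
    intro P
    have h2 := card_cover (F := K) (K := K) hK hK t ht G hG v hv P
    rw [← h2, Finset.sum_boole]
    congr 1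
    rw [← Fintype.card_subtype, ← Nat.card_eq_fintype_card]
    refine Nat.card_congr ⟨fun φ => ⟨⟨φ.1, φ.2.1⟩, φ.2.2⟩, fun φ => ⟨φ.1.1, φ.1.2, φ.2⟩, ?_, ?_⟩
    · intro φ; rfl
    · intro φ; rfl
  have hsupp : (Function.support fun P : Place k K => max (ord P.ring t) 0) ⊆
      (hfin.toFinset : Set (Place k K)) := by
    intro P hP
    rw [Function.mem_support] at hP
    rw [Set.Finite.coe_toFinset, Set.mem_ofPred_eq, ← ord_pos_iff hK P ht0]
    by_contra hcon
    exact hP (max_eq_right (not_lt.mp hcon))
  rw [finsum_eq_sum_of_support_subset _ hsupp]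
  rw [Finset.sum_congr rfl (fun P _ => h1 P), Finset.sum_comm]
  have h3 : ∀ φ : {φ : K →ₐ[k] K // φ t = t}, ∑ P ∈ hfin.toFinset,
      (if Place.comap hK hK φ.1 v = P then (1 : ℤ) else 0) = 1 := by
    intro φ
    rw [Finset.sum_ite_eq, if_pos]
    rw [Set.Finite.mem_toFinset, Set.mem_ofPred_eq]
    change t ∈ (v.ring.comap φ.1.toRingHom).nonunits
    rw [mem_nonunits_comap]
    change φ.1 t ∈ _
    rw [φ.2]
    exact hv
  rw [Finset.sum_congr rfl (fun φ _ => h3 φ), Finset.sum_const, Finset.card_univ,
    ← Nat.card_eq_fintype_card]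
  simp

end

universe u

theorem exists_cover {k F : Type u} [Field k] [IsAlgClosed k] [CharZero k]
    [Field F] [Algebra k F] (hF : IsFunctionField k F) (t : F) (ht : Transcendental k t) :
    ∃ (K : Type u) (_ : Field K) (_ : Algebra k K) (_ : Algebra F K) (_ : IsScalarTower k F K)
      (_ : IsFunctionField k K) (G : Type u) (_ : Group G) (_ : Finite G)
      (_ : MulSemiringAction G K), IsGaloisGroup G k⟮algebraMap F K t⟯ K := by
  have hfin : FiniteDimensional k⟮t⟯ F := hF.finiteDimensional ht
  let K := IntermediateField.normalClosure k⟮t⟯ F (AlgebraicClosure F)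
  have c0 : CharZero k⟮t⟯ := charZero_of_injective_algebraMap (algebraMap k k⟮t⟯).injective
  have alg : Algebra.IsAlgebraic k⟮t⟯ F := inferInstance
  have halgcl : IsAlgClosure k⟮t⟯ (AlgebraicClosure F) :=
    ⟨inferInstance, Algebra.IsAlgebraic.trans k⟮t⟯ F (AlgebraicClosure F)⟩
  have n0 : Normal k⟮t⟯ (AlgebraicClosure F) := IsAlgClosure.normal k⟮t⟯ (AlgebraicClosure F)
  have n1 : Normal k⟮t⟯ K := inferInstance
  have n2 : IsGalois k⟮t⟯ K := ⟨⟩
  have n3 : FiniteDimensional k⟮t⟯ K := inferInstance
  have a3' : IsScalarTower k⟮t⟯ F K := inferInstance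
  have a4 : IsScalarTower k k⟮t⟯ K := inferInstance
  have a2 : IsScalarTower k F K := IsScalarTower.of_algebraMap_eq (fun x => by
    rw [IsScalarTower.algebraMap_apply k k⟮t⟯ K, IsScalarTower.algebraMap_apply k⟮t⟯ F K,
      IsScalarTower.algebraMap_apply k k⟮t⟯ F])
  have htK : Transcendental k (algebraMap F K t) :=
    (transcendental_algebraMap_iff (algebraMap F K).injective).mpr ht
  -- the two copies of the rational function field
  let e : k⟮t⟯ ≃+* k⟮algebraMap F K t⟯ :=
    ((RatFunc.algEquivOfTranscendental t ht).symm.trans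
      (RatFunc.algEquivOfTranscendental (algebraMap F K t) htK)).toRingEquiv
  have he : ∀ a : k⟮t⟯, algebraMap k⟮algebraMap F K t⟯ K (e a) = algebraMap k⟮t⟯ K a := by
    intro a
    have h : ((algebraMap k⟮algebraMap F K t⟯ K).comp
        (RatFunc.algEquivOfTranscendental (algebraMap F K t) htK).toRingEquiv.toRingHom) =
        (algebraMap k⟮t⟯ K).comp (RatFunc.algEquivOfTranscendental t ht).toRingEquiv.toRingHom := by
      apply IsFractionRing.ringHom_ext (A := k[X])
      intro x
      have h1 := ratAlg_poly (algebraMap F K t) htK x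
      have h2 := ratAlg_poly t ht x
      change algebraMap k⟮algebraMap F K t⟯ K (RatFunc.algEquivOfTranscendental (algebraMap F K t) htK
        (algebraMap k[X] (RatFunc k) x)) = _ at h1
      change algebraMap k⟮t⟯ F (RatFunc.algEquivOfTranscendental t ht
        (algebraMap k[X] (RatFunc k) x)) = _ at h2
      change algebraMap k⟮algebraMap F K t⟯ K (RatFunc.algEquivOfTranscendental (algebraMap F K t) htK
        (algebraMap k[X] (RatFunc k) x)) = algebraMap k⟮t⟯ K (RatFunc.algEquivOfTranscendental t ht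
        (algebraMap k[X] (RatFunc k) x))
      rw [h1, IsScalarTower.algebraMap_apply k⟮t⟯ F K, h2, Polynomial.aeval_algebraMap_apply]
    have h3 := congrArg (fun f => f ((RatFunc.algEquivOfTranscendental t ht).symm a)) h
    change algebraMap k⟮algebraMap F K t⟯ K (RatFunc.algEquivOfTranscendental (algebraMap F K t) htK
        ((RatFunc.algEquivOfTranscendental t ht).symm a)) = algebraMap k⟮t⟯ K
        (RatFunc.algEquivOfTranscendental t ht
        ((RatFunc.algEquivOfTranscendental t ht).symm a)) at h3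
    rw [AlgEquiv.apply_symm_apply] at h3
    exact h3
  have g0 : IsGaloisGroup Gal(K/k⟮t⟯) k⟮t⟯ K := inferInstance
  have g1 : IsGaloisGroup Gal(K/k⟮t⟯) k⟮algebraMap F K t⟯ K :=
    IsGaloisGroup.of_ringEquiv Gal(K/k⟮t⟯) k⟮t⟯ k⟮algebraMap F K t⟯ K e he
  have g2 : FiniteDimensional k⟮algebraMap F K t⟯ K :=
    IsGaloisGroup.finiteDimensional Gal(K/k⟮t⟯) k⟮algebraMap F K t⟯ K
  exact ⟨K, inferInstance, inferInstance, inferInstance, a2, ⟨_, htK, g2⟩, Gal(K/k⟮t⟯),
    inferInstance, inferInstance, inferInstance, g1⟩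


end VC
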