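import Mathlib
import Pool.Agent.Helper26.VC.Main4

/-!
# Zero-cycles modulo rational equivalence, curves, products, genus

All varieties occurring here are products of smooth projective curves over an algebraically
closed field `k`. For the Chow group of zero-cycles of a projective variety `X` one needs only
the closed points of `X` and the morphisms from smooth projective curves to `X`: the group of
cycles rationally equivalent to zero is generated by the cycles `c_* div f`, for `c : D → X` a
morphism from a smooth projective curve `D` and `f` a nonzero rational function on `D`.
A smooth projective curve `D` is given by its function field `K`, its closed points are the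
places of `K`.
-/

namespace VC

universe u

/-- The data of a projective variety `X` over `k` which enter the definition of the Chow group of
zero-cycles. -/
structure Variety (k : Type u) [Field k] where
  /-- the closed points of `X` -/
  Pt : Type u
  /-- the morphisms to `X` from the smooth projective curve with function field `K` -/
  Mor : (K : Type u) → [Field K] → [Algebra k K] → Type u
  /-- the image of a closed point of the curve under such a morphism -/
  eval : {K : Type u} → [Field K] → [Algebra k K] → IsFunctionField k K → Mor K → Place k K → Pt

/-- The smooth projective curve with function field `F`. Its closed points are the places of `F`.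
A morphism from the curve with function field `K` is either constant, given by a closed point, or
it is dominant, given by a `k`-embedding of `F` in `K`; in the second case the image of a place `v`
of `K` is the restriction of `v` to `F`. -/
abbrev curve {k F : Type u} [Field k] [Field F] [Algebra k F] (hF : IsFunctionField k F) :
    Variety k where
  Pt := Place k F
  Mor K _ _ := Place k F ⊕ (F →ₐ[k] K)
  eval hK c v := match c with
    | Sum.inl P => P
    | Sum.inr φ => Place.comap hF hK φ v

/-- The product of two varieties. -/
abbrev Variety.prod {k : Type u} [Field k] (X Y : Variety k) : Variety k where
  Pt := X.Pt × Y.Pt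
  Mor K _ _ := X.Mor K × Y.Mor K
  eval hK c v := (X.eval hK c.1 v, Y.eval hK c.2 v)

/-- The `n`-fold self-product of a variety. -/
abbrev Variety.pow {k : Type u} [Field k] (X : Variety k) (n : ℕ) : Variety k where
  Pt := Fin n → X.Pt
  Mor K _ _ := Fin n → X.Mor K
  eval hK c v := fun i => X.eval hK (c i) v

/-- The group of zero-cycles with integral coefficients. -/
abbrev Variety.Cycles {k : Type u} [Field k] (X : Variety k) : Type u := X.Pt →₀ ℤ

/-- The group of zero-cycles rationally equivalent to zero: it is generated by the cycles
`c_* div f = ∑ ord_v (f) c(v)`, the sum over the closed points `v` of a smooth projective curve,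
for `c` a morphism from this curve to `X` and `f` a nonzero rational function on this curve. -/
noncomputable def Variety.Rat {k : Type u} [Field k] (X : Variety k) : AddSubgroup X.Cycles :=
  AddSubgroup.closure {z | ∃ (K : Type u) (_ : Field K) (_ : Algebra k K)
    (hK : IsFunctionField k K) (c : X.Mor K) (f : K), f ≠ 0 ∧
      z = ∑ᶠ v : Place k K, Finsupp.single (X.eval hK c v) (ord v.ring f)}

/-- The exterior product `a_1 × ⋯ × a_n` of zero-cycles on `X`, a zero-cycle on `X ^ n`: the
coefficient of the point `(p_1, …, p_n)` is the product of the coefficients `a_i (p_i)`. -/
noncomputable def extProd {k : Type u} [Field k] {X : Variety k} {n : ℕ}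
    (a : Fin n → X.Cycles) : (X.pow n).Cycles :=
  ∑ p ∈ Fintype.piFinset (fun i => (a i).support), Finsupp.single p (∏ i, a i (p i))

/-- The Riemann-Roch space `L(D)` of a divisor `D` on the smooth projective curve with function
field `F`, spanned by (in fact consisting of zero and) the nonzero functions `f` with
`div f + D ≥ 0`. -/
noncomputable def riemannRochSpace (k F : Type u) [Field k] [Field F] [Algebra k F]
    (D : Place k F →₀ ℤ) : Submodule k F :=
  Submodule.span k {f : F | f ≠ 0 ∧ ∀ P : Place k F, 0 ≤ ord P.ring f + D P}

/-- The genus, in Riemann's form: the least natural number `g` such that
`deg D + 1 - g ≤ dim L(D)` for all divisors `D`. -/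
def IsGenus (k F : Type u) [Field k] [Field F] [Algebra k F] (g : ℕ) : Prop :=
  IsLeast {g : ℕ | ∀ D : Place k F →₀ ℤ,
    (D.sum fun _ m => m) + 1 ≤ (Module.finrank k (riemannRochSpace k F D) : ℤ) + g} g

/-- A zero-cycle `a` on a product of two curves is Albanese trivial if its pushforwards to both
curves are rationally equivalent to zero (the Albanese variety of the product is the product of
the Jacobians of the two curves, and the Abel-Jacobi map of a curve is injective on zero-cycles
of degree zero modulo rational equivalence). -/
def AlbaneseTrivial {k : Type u} [Field k] (X Y : Variety k) (a : (X.prod Y).Cycles) : Prop :=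
  Finsupp.mapDomain Prod.fst a ∈ X.Rat ∧ Finsupp.mapDomain Prod.snd a ∈ Y.Rat

end VC
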