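import Mathlib
import Pool.Agent.Helper26.VC.Cycles

/-!
# Moving `g + 1` points of a curve of genus `g`
-/

namespace VC

open IntermediateField Function

section fibres

variable {Φ J α : Type*} [Finite Φ] [Finite J]

lemma exists_perm_of_fibres (A B : Φ → α)
    (h : ∀ p, Nat.card {φ // A φ = p} = Nat.card {φ // B φ = p}) :
    ∃ π : Equiv.Perm Φ, A = B ∘ π := by
  have e : ∀ p, Nonempty ({φ // A φ = p} ≃ {φ // B φ = p}) := fun p =>
    Finite.card_eq.mp (h p)
  let π : Φ ≃ Φ := (Equiv.sigmaFiberEquiv A).symm.trans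
    ((Equiv.sigmaCongrRight (fun p => (e p).some)).trans (Equiv.sigmaFiberEquiv B))
  refine ⟨π, ?_⟩
  funext φ
  have := ((e (A φ)).some ⟨φ, rfl⟩).2
  exact this.symm

lemma exists_embedding_of_fibres (A : Φ → α) (x : J → α)
    (h : ∀ p, Nat.card {φ // A φ = p} ≤ Nat.card {j // x j = p}) :
    ∃ e : Φ ↪ J, x ∘ e = A := by
  have e : ∀ p, Nonempty ({φ // A φ = p} ↪ {j // x j = p}) := fun p => by
    have := Fintype.ofFinite {φ // A φ = p}
    have := Fintype.ofFinite {j // x j = p}
    apply Function.Embedding.nonempty_of_card_le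
    rw [← Nat.card_eq_fintype_card, ← Nat.card_eq_fintype_card]
    exact h p
  let π : Φ ↪ J := (Equiv.sigmaFiberEquiv A).symm.toEmbedding.trans
    ((Function.Embedding.sigmaMap (Function.Embedding.refl α) (fun p => (e p).some)).trans
      (Equiv.sigmaFiberEquiv x).toEmbedding)
  refine ⟨π, ?_⟩
  funext φ
  exact ((e (A φ)).some ⟨φ, rfl⟩).2

end fibres

universe u

section move

variable {k F : Type u} [Field k] [IsAlgClosed k] [CharZero k] [Field F] [Algebra k F]

lemma finite_support_ord (hF : IsFunctionField k F) {f : F} (hf : f ≠ 0) :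
    {v : Place k F | ord v.ring f ≠ 0}.Finite := by
  by_cases ht : Transcendental k f
  · have ht' : Transcendental k f⁻¹ := by
      intro h
      apply ht
      have := h.inv
      rwa [inv_inv] at this
    refine ((finite_zeros hF ht).union (finite_zeros hF ht')).subset ?_
    intro v hv
    rw [Set.mem_ofPred_eq] at hv
    rcases lt_or_gt_of_ne hv with h | h
    · right
      rw [Set.mem_ofPred_eq, ← ord_pos_iff hF v (inv_ne_zero hf), ord_inv hF v hf]
      omega
    · left
      rw [Set.mem_ofPred_eq, ← ord_pos_iff hF v hf]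
      exact h
  · have hint : IsIntegral k f := (not_not.mp ht : IsAlgebraic k f).isIntegral
    obtain ⟨b, hb⟩ : ∃ b : k, algebraMap k F b = f := by
      have hdeg := IsAlgClosed.degree_eq_one_of_irreducible k (minpoly.irreducible hint)
      exact (minpoly.mem_range_of_degree_eq_one k f hdeg)
    have hb0 : b ≠ 0 := by
      rintro rfl
      apply hf
      rw [← hb, map_zero]
    convert Set.finite_empty
    ext v
    rw [Set.mem_ofPred_eq, ← hb, ord_algebraMap hF v hb0]
    simp

/-- The function field version of the choice of a rational function with poles at most at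
the points `x j` and vanishing at `o`. -/
lemma exists_function (g : ℕ) (hg : ∀ D : Place k F →₀ ℤ,
    (D.sum fun _ m => m) + 1 ≤ (Module.finrank k (riemannRochSpace k F D) : ℤ) + g)
    {J : Type*} [Finite J] (hJ : Nat.card J = g + 1) (x : J → Place k F) (o : Place k F) :
    ∃ f : F, f ≠ 0 ∧ (∀ P, 0 ≤ ord P.ring f + Nat.card {j // x j = P}) ∧
      1 ≤ ord o.ring f + Nat.card {j // x j = o} := by
  classical
  have : Fintype J := Fintype.ofFinite J
  let D : Place k F →₀ ℤ := (∑ j, Finsupp.single (x j) (1 : ℤ)) - Finsupp.single o 1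
  have hD : ∀ P, D P = (Nat.card {j // x j = P} : ℤ) - if o = P then 1 else 0 := by
    intro P
    simp only [D, Finsupp.sub_apply, Finsupp.finsetSum_apply, Finsupp.single_apply]
    congr 1
    rw [Finset.sum_boole, Nat.card_eq_fintype_card, Fintype.card_subtype]
  have hdeg : (D.sum fun _ m => m) = g := by
    have h1 : (D.sum fun _ m => m) = (Finsupp.liftAddHom (fun _ : Place k F => AddMonoidHom.id ℤ)) D := rfl
    rw [h1]
    simp only [D, map_sub, map_sum, Finsupp.liftAddHom_apply_single, AddMonoidHom.id_apply,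
      Finset.sum_const, Finset.card_univ, ← Nat.card_eq_fintype_card, hJ]
    simp
  have h1 := hg D
  rw [hdeg] at h1
  have h2 : (1 : ℤ) ≤ (Module.finrank k (riemannRochSpace k F D) : ℤ) := by omega
  by_contra hcon
  have h3 : {f : F | f ≠ 0 ∧ ∀ P : Place k F, 0 ≤ ord P.ring f + D P} = ∅ := by
    ext f
    rw [Set.mem_ofPred_eq]
    simp only [Set.mem_empty_iff_false, iff_false]
    rintro ⟨hf, hf'⟩
    apply hcon
    refine ⟨f, hf, ?_, ?_⟩
    · intro P
      have h4 := hf' P
      rw [hD] at h4
      split_ifs at h4 <;> omega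
    · have h4 := hf' o
      rw [hD, if_pos rfl] at h4
      omega
  unfold riemannRochSpace at h2
  rw [h3, Submodule.span_empty, finrank_bot] at h2
  omega

/-- Data of a rational curve in a symmetric power of a curve joining two effective divisors. -/
theorem move (hF : IsFunctionField k F) (g : ℕ) (hg : ∀ D : Place k F →₀ ℤ,
    (D.sum fun _ m => m) + 1 ≤ (Module.finrank k (riemannRochSpace k F D) : ℤ) + g)
    {J : Type*} [Finite J] (hJ : Nat.card J = g + 1) (x : J → Place k F) (o : Place k F) :
    ∃ y : J → Place k F, (∃ j, y j = o) ∧ ((∃ τ : Equiv.Perm J, y = x ∘ τ) ∨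
      ∃ (K : Type u) (_ : Field K) (_ : Algebra k K) (hK : IsFunctionField k K)
        (z : J → (curve hF).Mor K) (T : K) (m : ℕ), T ≠ 0 ∧ 0 < m ∧
        (∀ v : Place k K, 0 < ord v.ring T →
          ∃ τ : Equiv.Perm J, (fun j => (curve hF).eval hK (z j) v) = x ∘ τ) ∧
        (∀ v : Place k K, ord v.ring T < 0 →
          ∃ τ : Equiv.Perm J, (fun j => (curve hF).eval hK (z j) v) = y ∘ τ) ∧
        (∑ᶠ v : Place k K, max (ord v.ring T) 0 = (m : ℤ)) ∧
        (∑ᶠ v : Place k K, max (- ord v.ring T) 0 = (m : ℤ))) := by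
  classical
  obtain ⟨f, hf0, hf1, hf2⟩ := exists_function (k := k) (F := F) g hg hJ x o
  by_cases ht : Transcendental k f
  swap
  · -- constant function
    have hint : IsIntegral k f := (not_not.mp ht : IsAlgebraic k f).isIntegral
    obtain ⟨b, hb⟩ : ∃ b : k, algebraMap k F b = f := by
      have hdeg := IsAlgClosed.degree_eq_one_of_irreducible k (minpoly.irreducible hint)
      exact (minpoly.mem_range_of_degree_eq_one k f hdeg)
    have hb0 : b ≠ 0 := by
      rintro rfl
      apply hf0
      rw [← hb, map_zero]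
    rw [← hb, ord_algebraMap hF o hb0, zero_add] at hf2
    have hne : Nonempty {j // x j = o} := by
      by_contra hcon
      rw [not_nonempty_iff] at hcon
      rw [Nat.card_of_isEmpty] at hf2
      norm_num at hf2
    obtain ⟨j, hj⟩ := hne
    exact ⟨x, ⟨j, hj⟩, Or.inl ⟨1, rfl⟩⟩
  · obtain ⟨K, _, _, _, _, hK, G, _, _, _, hG⟩ := exists_cover hF f ht
    set T : K := algebraMap F K f⁻¹ with hT
    have hfinv : Transcendental k f⁻¹ := by
      intro h
      apply ht
      have := h.inv
      rwa [inv_inv] at this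
    have hTtr : Transcendental k T :=
      (transcendental_algebraMap_iff (algebraMap F K).injective).mpr hfinv
    have hιtr : Transcendental k (algebraMap F K f) :=
      (transcendental_algebraMap_iff (algebraMap F K).injective).mpr ht
    have hTinv : T⁻¹ = algebraMap F K f := by rw [hT, map_inv₀, inv_inv]
    have hT0 : T ≠ 0 := by
      rw [hT, Ne, map_eq_zero]
      exact inv_ne_zero hf0
    have hadj : k⟮algebraMap F K f⁻¹⟯ = k⟮algebraMap F K f⟯ := by
      apply le_antisymm
      · rw [IntermediateField.adjoin_simple_le_iff, map_inv₀]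
        exact inv_mem (IntermediateField.mem_adjoin_simple_self k _)
      · rw [IntermediateField.adjoin_simple_le_iff]
        have h := inv_mem (IntermediateField.mem_adjoin_simple_self k (algebraMap F K f⁻¹))
        have h2 : (algebraMap F K f⁻¹)⁻¹ = algebraMap F K f := by rw [map_inv₀, inv_inv]
        rw [h2] at h
        exact h
    have hG' : IsGaloisGroup G k⟮algebraMap F K f⁻¹⟯ K := by rw [hadj]; exact hG
    -- the set of embeddings
    let Φ := {φ : F →ₐ[k] K // φ f = algebraMap F K f}
    have hΦ : Finite Φ := finite_homs f (hF.finiteDimensional ht)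
    have cnt0 : ∀ v : Place k K, algebraMap F K f ∈ v.ring.nonunits → ∀ P : Place k F,
        (Nat.card {φ : Φ // Place.comap hF hK φ.1 v = P} : ℤ) = max (ord P.ring f) 0 := by
      intro v hv P
      rw [← card_cover hF hK f ht G hG v hv P]
      congr 1
      refine Nat.card_congr ⟨fun φ => ⟨φ.1.1, φ.1.2, φ.2⟩, fun φ => ⟨⟨φ.1, φ.2.1⟩, φ.2.2⟩, ?_, ?_⟩
      · intro φ; rfl
      · intro φ; rfl
    have cnt1 : ∀ v : Place k K, T ∈ v.ring.nonunits → ∀ P : Place k F,
        (Nat.card {φ : Φ // Place.comap hF hK φ.1 v = P} : ℤ) = max (- ord P.ring f) 0 := by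
      intro v hv P
      rw [← ord_inv hF P hf0, ← card_cover hF hK f⁻¹ hfinv G hG' v hv P]
      congr 1
      refine Nat.card_congr ⟨fun φ => ⟨φ.1.1, ?_, φ.2⟩, fun φ => ⟨⟨φ.1, ?_⟩, φ.2.2⟩, ?_, ?_⟩
      · rw [map_inv₀, φ.1.2, map_inv₀]
      · have h := (map_inv₀ φ.1 f).symm.trans (φ.2.1.trans (map_inv₀ (algebraMap F K) f))
        exact inv_injective h
      · intro φ; rfl
      · intro φ; rfl
    obtain ⟨v0, hv0⟩ := exists_place hK hιtr
    obtain ⟨v1, hv1⟩ := exists_place hK hTtr
    obtain ⟨e, he⟩ := exists_embedding_of_fibres (fun φ : Φ => Place.comap hF hK φ.1 v1) x (by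
      intro P
      have h1 := cnt1 v1 hv1 P
      have h2 := hf1 P
      have h3 : (Nat.card {φ : Φ // Place.comap hF hK φ.1 v1 = P} : ℤ) ≤
          Nat.card {j // x j = P} := by
        rw [h1]
        apply max_le <;> omega
      exact_mod_cast h3)
    have hex : ∀ φ : Φ, x (e φ) = Place.comap hF hK φ.1 v1 := fun φ => congrFun he φ
    let y : J → Place k F := fun j => if h : ∃ φ, e φ = j then
      Place.comap hF hK h.choose.1 v0 else x j
    have hye : ∀ φ : Φ, y (e φ) = Place.comap hF hK φ.1 v0 := by
      intro φ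
      have h : ∃ ψ, e ψ = e φ := ⟨φ, rfl⟩
      have h2 : h.choose = φ := e.injective h.choose_spec
      simp only [y]
      rw [dif_pos h, h2]
    have hyn : ∀ j, (¬ ∃ φ, e φ = j) → y j = x j := by
      intro j hj
      simp only [y]
      rw [dif_neg hj]
    let z : J → (curve hF).Mor K := fun j => if h : ∃ φ, e φ = j then
      Sum.inr h.choose.1 else Sum.inl (x j)
    have hze : ∀ φ : Φ, z (e φ) = Sum.inr φ.1 := by
      intro φ
      have h : ∃ ψ, e ψ = e φ := ⟨φ, rfl⟩
      have h2 : h.choose = φ := e.injective h.choose_spec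
      simp only [z]
      rw [dif_pos h, h2]
    have hzn : ∀ j, (¬ ∃ φ, e φ = j) → z j = Sum.inl (x j) := by
      intro j hj
      simp only [z]
      rw [dif_neg hj]
    refine ⟨y, ?_, Or.inr ⟨K, _, _, hK, z, T, Nat.card {φ : K →ₐ[k] K // φ T = T}, hT0, ?_,
      ?_, ?_, ?_, ?_⟩⟩
    · -- `o` is one of the new points
      by_cases ho : 0 < ord o.ring f
      · have h1 := cnt0 v0 hv0 o
        rw [max_eq_left ho.le] at h1
        have hne : Nonempty {φ : Φ // Place.comap hF hK φ.1 v0 = o} := by
          by_contra hcon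
          rw [not_nonempty_iff] at hcon
          rw [Nat.card_of_isEmpty] at h1
          push_cast at h1
          omega
        obtain ⟨φ, hφ⟩ := hne
        exact ⟨e φ, by rw [hye, hφ]⟩
      · have h1 := cnt1 v1 hv1 o
        by_contra hcon
        push Not at hcon
        have hall : ∀ j, x j = o → ∃ φ, e φ = j := by
          intro j hj
          by_contra hc
          exact hcon j (by rw [hyn j hc, hj])
        have hle : Nat.card {j // x j = o} ≤
            Nat.card {φ : Φ // Place.comap hF hK φ.1 v1 = o} := by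
          choose s hs using hall
          have hinj : Function.Injective (fun j : {j // x j = o} =>
              (⟨s j.1 j.2, by rw [← hex, hs, j.2]⟩ :
                {φ : Φ // Place.comap hF hK φ.1 v1 = o})) := by
            intro j j' hjj
            have h2 : s j.1 j.2 = s j'.1 j'.2 := congrArg Subtype.val hjj
            have h3 := congrArg e h2
            rw [hs, hs] at h3
            exact Subtype.ext h3
          exact Nat.card_le_card_of_injective _ hinj
        have hle' : (Nat.card {j // x j = o} : ℤ) ≤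
            Nat.card {φ : Φ // Place.comap hF hK φ.1 v1 = o} := by exact_mod_cast hle
        rw [h1, max_eq_left (by omega)] at hle'
        omega
    · have : Finite {φ : K →ₐ[k] K // φ T = T} :=
        finite_homs (K := K) T (hK.finiteDimensional hTtr)
      have : Nonempty {φ : K →ₐ[k] K // φ T = T} := ⟨⟨AlgHom.id k K, rfl⟩⟩
      exact Nat.card_pos
    · intro v hv
      rw [ord_pos_iff hK v hT0] at hv
      obtain ⟨π, hπ⟩ := exists_perm_of_fibres (fun φ : Φ => Place.comap hF hK φ.1 v)
        (fun φ : Φ => Place.comap hF hK φ.1 v1) (by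
          intro P
          have h1 := cnt1 v hv P
          have h2 := cnt1 v1 hv1 P
          rw [← h2] at h1
          exact_mod_cast h1)
      have hπ' : ∀ φ : Φ, Place.comap hF hK φ.1 v = Place.comap hF hK (π φ).1 v1 :=
        fun φ => congrFun hπ φ
      refine ⟨π.viaEmbedding e, ?_⟩
      funext j
      by_cases hj : ∃ φ, e φ = j
      · obtain ⟨φ, rfl⟩ := hj
        rw [hze, Function.comp_apply, Equiv.Perm.viaEmbedding_apply, hex, ← hπ']
      · rw [hzn j hj, Function.comp_apply, Equiv.Perm.viaEmbedding_apply_of_notMem]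
        rintro ⟨φ, hφ⟩
        exact hj ⟨φ, hφ⟩
    · intro v hv
      have hv' : algebraMap F K f ∈ v.ring.nonunits := by
        rw [← hTinv, ← ord_pos_iff hK v (inv_ne_zero hT0), ord_inv hK v hT0]
        omega
      obtain ⟨π, hπ⟩ := exists_perm_of_fibres (fun φ : Φ => Place.comap hF hK φ.1 v)
        (fun φ : Φ => Place.comap hF hK φ.1 v0) (by
          intro P
          have h1 := cnt0 v hv' P
          have h2 := cnt0 v0 hv0 P
          rw [← h2] at h1
          exact_mod_cast h1)
      have hπ' : ∀ φ : Φ, Place.comap hF hK φ.1 v = Place.comap hF hK (π φ).1 v0 :=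
        fun φ => congrFun hπ φ
      refine ⟨π.viaEmbedding e, ?_⟩
      funext j
      by_cases hj : ∃ φ, e φ = j
      · obtain ⟨φ, rfl⟩ := hj
        rw [hze, Function.comp_apply, Equiv.Perm.viaEmbedding_apply, hye, ← hπ']
      · rw [hzn j hj, Function.comp_apply, Equiv.Perm.viaEmbedding_apply_of_notMem, hyn j hj]
        rintro ⟨φ, hφ⟩
        exact hj ⟨φ, hφ⟩
    · exact sum_ord_galois hK T hTtr G hG'
    · have h1 := sum_ord_galois hK (algebraMap F K f) hιtr G hG
      rw [← hTinv] at h1
      have h2 : Nat.card {φ : K →ₐ[k] K // φ T⁻¹ = T⁻¹} = Nat.card {φ : K →ₐ[k] K // φ T = T} := by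
        apply Nat.card_congr
        apply Equiv.subtypeEquivRight
        intro φ
        rw [map_inv₀, inv_inj]
      rw [← h2, ← h1]
      apply finsum_congr
      intro v
      rw [ord_inv hK v hT0]

end move

end VC
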