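import Mathlib
import Pool.Agent.Helper26.VC.Chow

/-!
# Exterior products of zero-cycles
-/

namespace VC

open Function

universe u

section general

variable {α : Type u} {n : ℕ}

/-- exterior product of finitely supported functions -/
noncomputable def ext' (a : Fin n → (α →₀ ℤ)) : (Fin n → α) →₀ ℤ :=
  ∑ p ∈ Fintype.piFinset (fun i => (a i).support), Finsupp.single p (∏ i, a i (p i))

lemma ext'_apply (a : Fin n → (α →₀ ℤ)) (p : Fin n → α) : ext' a p = ∏ i, a i (p i) := by
  classical
  unfold ext'
  rw [Finsupp.finsetSum_apply]
  by_cases hp : p ∈ Fintype.piFinset (fun i => (a i).support)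
  · rw [Finset.sum_eq_single p]
    · rw [Finsupp.single_eq_same]
    · intro q _ hq
      rw [Finsupp.single_apply, if_neg hq]
    · intro h; exact absurd hp h
  · rw [Finset.sum_eq_zero]
    · symm
      rw [Fintype.mem_piFinset] at hp
      push Not at hp
      obtain ⟨i, hi⟩ := hp
      apply Finset.prod_eq_zero (Finset.mem_univ i)
      rwa [Finsupp.notMem_support_iff] at hi
    · intro q hq
      rw [Finsupp.single_apply, if_neg]
      rintro rfl
      exact hp hq

/-- exterior product as a multilinear map -/
noncomputable def extM (α : Type u) (n : ℕ) :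
    MultilinearMap ℤ (fun _ : Fin n => (α →₀ ℤ)) ((Fin n → α) →₀ ℤ) where
  toFun := ext'
  map_update_add' := by
    intro _ a i x y
    ext p
    rw [Finsupp.add_apply, ext'_apply, ext'_apply, ext'_apply]
    have h : ∀ z : α →₀ ℤ, ∏ j, (update a i z) j (p j) = z (p i) * ∏ j ∈ Finset.univ.erase i, a j (p j) := by
      intro z
      rw [← Finset.mul_prod_erase Finset.univ _ (Finset.mem_univ i), update_self]
      congr 1
      apply Finset.prod_congr rfl
      intro j hj
      rw [update_of_ne (Finset.ne_of_mem_erase hj)]
    have hd : (‹DecidableEq (Fin n)› : DecidableEq (Fin n)) = instDecidableEqFin n :=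
      Subsingleton.elim _ _
    subst hd
    rw [h, h, h, Finsupp.add_apply, add_mul]
  map_update_smul' := by
    intro _ a i c x
    ext p
    rw [Finsupp.smul_apply, ext'_apply, ext'_apply]
    have h : ∀ z : α →₀ ℤ, ∏ j, (update a i z) j (p j) = z (p i) * ∏ j ∈ Finset.univ.erase i, a j (p j) := by
      intro z
      rw [← Finset.mul_prod_erase Finset.univ _ (Finset.mem_univ i), update_self]
      congr 1
      apply Finset.prod_congr rfl
      intro j hj
      rw [update_of_ne (Finset.ne_of_mem_erase hj)]
    have hd : (‹DecidableEq (Fin n)› : DecidableEq (Fin n)) = instDecidableEqFin n :=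
      Subsingleton.elim _ _
    subst hd
    rw [h, h, Finsupp.smul_apply, smul_eq_mul, smul_eq_mul, mul_assoc]

lemma extM_apply (a : Fin n → (α →₀ ℤ)) : extM α n a = ext' a := rfl

lemma ext'_single (p : Fin n → α) : ext' (fun i => Finsupp.single (p i) (1 : ℤ)) =
    Finsupp.single p 1 := by
  classical
  ext q
  rw [ext'_apply, Finsupp.single_apply]
  by_cases h : p = q
  · subst h
    simp
  · rw [if_neg h]
    obtain ⟨i, hi⟩ := Function.ne_iff.mp h
    apply Finset.prod_eq_zero (Finset.mem_univ i)
    rw [Finsupp.single_apply, if_neg hi]

lemma ext'_update_single (q : Fin n → α) (i : Fin n) (b : α →₀ ℤ) (a : Fin n → (α →₀ ℤ))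
    (ha : ∀ j, j ≠ i → a j = Finsupp.single (q j) 1) (hi : a i = b) :
    ext' a = Finsupp.mapDomain (fun p => update q i p) b := by
  classical
  ext p
  rw [ext'_apply, ← Finset.mul_prod_erase Finset.univ _ (Finset.mem_univ i), hi]
  have hinj : Function.Injective (fun x => update q i x) := update_injective q i
  by_cases h : ∀ j, j ≠ i → q j = p j
  · have hp : p = (fun x => update q i x) (p i) := by
      funext j
      by_cases hj : j = i
      · subst hj; simp
      · simp [update_of_ne hj, h j hj]
    have h1 : ∏ x ∈ Finset.univ.erase i, (a x) (p x) = 1 := by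
      apply Finset.prod_eq_one
      intro j hj
      rw [ha j (Finset.ne_of_mem_erase hj), Finsupp.single_apply,
        if_pos (h j (Finset.ne_of_mem_erase hj))]
    rw [h1, mul_one]
    conv_rhs => rw [hp]
    rw [Finsupp.mapDomain_apply hinj]
  · push Not at h
    obtain ⟨j, hj, hj'⟩ := h
    have h1 : ∏ x ∈ Finset.univ.erase i, (a x) (p x) = 0 := by
      apply Finset.prod_eq_zero (Finset.mem_erase.mpr ⟨hj, Finset.mem_univ j⟩)
      rw [ha j hj, Finsupp.single_apply, if_neg hj']
    rw [h1, mul_zero, Finsupp.mapDomain_of_notMem_range]
    rintro ⟨x, hx⟩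
    apply hj'
    rw [← hx]
    simp [update_of_ne hj]

end general

section chow

variable {k : Type u} [Field k] [IsAlgClosed k] [CharZero k] (X : Variety k) {n : ℕ}

lemma induced_update (q : Fin n → X.Pt) (hq : ∀ (K : Type u) [Field K] [Algebra k K]
    (hK : IsFunctionField k K) (p : X.Pt), ∃ c : X.Mor K, ∀ v, X.eval hK c v = p) (i : Fin n) :
    Induced X (X.pow n) (fun p => update q i p) := by
  intro K _ _ hK c
  choose d hd using fun j => hq K hK (q j)
  refine ⟨update d i c, ?_⟩
  intro v
  change (fun j => X.eval hK (update d i c j) v) = _
  funext j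
  by_cases hj : j = i
  · subst hj; simp
  · simp [update_of_ne hj, hd]

/-- An exterior product with a factor rationally equivalent to zero is rationally equivalent to
zero. -/
lemma ext'_mem_rat (hconst : ∀ (K : Type u) [Field K] [Algebra k K]
    (hK : IsFunctionField k K) (p : X.Pt), ∃ c : X.Mor K, ∀ v, X.eval hK c v = p)
    (i : Fin n) (a : Fin n → X.Cycles) (ha : a i ∈ X.Rat) : ext' a ∈ (X.pow n).Rat := by
  classical
  by_cases hemp : Nonempty X.Pt
  swap
  · rw [not_nonempty_iff] at hemp
    have : IsEmpty (Fin n → X.Pt) := ⟨fun p => hemp.false (p i)⟩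
    have h0 : ext' a = 0 := Subsingleton.elim _ _
    rw [h0]
    exact AddSubgroup.zero_mem _
  have key : ∀ S : Finset (Fin n), ∀ a : Fin n → X.Cycles, a i ∈ X.Rat →
      (∀ j ∉ S, j ≠ i → ∃ p, a j = Finsupp.single p 1) → ext' a ∈ (X.pow n).Rat := by
    intro S
    induction S using Finset.induction_on with
    | empty =>
      intro a ha h
      have h' : ∀ j, ∃ p, j ≠ i → a j = Finsupp.single p 1 := by
        intro j
        by_cases hj : j = i
        · exact ⟨hemp.some, fun h => absurd hj h⟩
        · obtain ⟨p, hp⟩ := h j (by simp) hj
          exact ⟨p, fun _ => hp⟩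
      choose q hq using h'
      rw [ext'_update_single q i (a i) a hq rfl]
      exact map_rat X (X.pow n) _ (induced_update X q hconst i) ha
    | insert j S hj ih =>
      intro a ha h
      by_cases hji : j = i
      · subst hji
        apply ih a ha
        intro l hl hl'
        exact h l (by simp [hl, hl']) hl'
      · have claim : ∀ b : X.Cycles, ext' (update a j b) ∈ (X.pow n).Rat := by
          intro b
          induction b using Finsupp.induction_linear with
          | zero =>
            have h0 : extM X.Pt n (update a j 0) = 0 := MultilinearMap.map_update_zero _ _ _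
            rw [extM_apply] at h0
            rw [h0]
            exact AddSubgroup.zero_mem _
          | add b c hb hc =>
            have h0 := MultilinearMap.map_update_add (extM X.Pt n) a j b c
            rw [extM_apply, extM_apply, extM_apply] at h0
            rw [h0]
            exact AddSubgroup.add_mem _ hb hc
          | single p m =>
            have h0 := MultilinearMap.map_update_smul (extM X.Pt n) a j m (Finsupp.single p 1)
            rw [extM_apply, extM_apply, Finsupp.smul_single, smul_eq_mul, mul_one] at h0
            rw [h0]
            apply AddSubgroup.zsmul_mem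
            apply ih
            · rw [update_of_ne (fun h => hji h.symm)]; exact ha
            · intro l hl hli
              by_cases hlj : l = j
              · subst hlj
                exact ⟨p, by simp⟩
              · rw [update_of_ne hlj]
                exact h l (by simp [hl, hlj]) hli
        have := claim (a j)
        rwa [update_eq_self] at this
  exact key Finset.univ a ha (fun j hj => absurd (Finset.mem_univ j) hj)

end chow

end VC
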