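import Mathlib
import Pool.Agent.Helper26.VC.Ext
import Pool.Agent.Helper26.VC.Comb

/-!
# Products of two curves
-/

namespace VC

open Function

universe u

lemma sum_permOn_ofSubtype {ι X : Type*} [Fintype ι] [DecidableEq ι] [AddCommMonoid X]
    (J : Finset ι) (G : Equiv.Perm ι → X) :
    ∑ τ ∈ permOn J, G τ = ∑ τ : Equiv.Perm J, G (Equiv.Perm.ofSubtype τ) := by
  symm
  refine Finset.sum_nbij (fun τ => Equiv.Perm.ofSubtype τ) ?_ ?_ ?_ ?_
  · intro τ _
    rw [mem_permOn]
    intro i hi
    exact Equiv.Perm.ofSubtype_apply_of_not_mem τ hi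
  · intro τ _ τ' _ h
    exact Equiv.Perm.ofSubtype_injective h
  · intro ρ hρ
    rw [Finset.mem_coe, mem_permOn] at hρ
    obtain ⟨τ, hτ⟩ := (Equiv.Perm.subtypeEquivSubtypePerm (fun i => i ∈ J)).surjective ⟨ρ, hρ⟩
    refine ⟨τ, by simp, ?_⟩
    exact congrArg Subtype.val hτ
  · intro τ _
    rfl

section product

variable {k : Type u} [Field k] [IsAlgClosed k] [CharZero k]
  {F₁ F₂ : Type u} [Field F₁] [Algebra k F₁] [Field F₂] [Algebra k F₂]
  (h₁ : IsFunctionField k F₁) (h₂ : IsFunctionField k F₂) (n : ℕ)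
  (o : Place k F₁ × Place k F₂)

/-- replace the coordinates of a point by those of the base point -/
def modify (b : Bool × Bool) (p : Place k F₁ × Place k F₂) : Place k F₁ × Place k F₂ :=
  (if b.1 then o.1 else p.1, if b.2 then o.2 else p.2)

/-- sign -/
def sgnb (b : Bool × Bool) : ℤ := (if b.1 then -1 else 1) * (if b.2 then -1 else 1)

/-- the operator sending a point `(x, y)` to `(x - o) × (y - o')` -/
noncomputable def TS : (Place k F₁ × Place k F₂ →₀ ℤ) →ₗ[ℤ] (Place k F₁ × Place k F₂ →₀ ℤ) :=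
  ∑ b : Bool × Bool, sgnb b • Finsupp.lmapDomain ℤ ℤ (modify o b)

omit [IsAlgClosed k] [CharZero k] in
lemma TS_apply (z : Place k F₁ × Place k F₂ →₀ ℤ) :
    TS o z = z - Finsupp.mapDomain (fun p => (p.1, o.2)) z - Finsupp.mapDomain (fun p => (o.1, p.2)) z
      + Finsupp.mapDomain (fun _ => o) z := by
  unfold TS
  rw [LinearMap.sum_apply, Fintype.sum_prod_type]
  simp only [Fintype.sum_bool, LinearMap.smul_apply, sgnb, Finsupp.lmapDomain_apply]
  have e1 : modify (k := k) o (true, true) = fun _ => o := by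
    funext p; simp [modify]
  have e2 : modify (k := k) o (true, false) = fun p => (o.1, p.2) := by
    funext p; simp [modify]
  have e3 : modify (k := k) o (false, true) = fun p => (p.1, o.2) := by
    funext p; simp [modify]
  have e4 : modify (k := k) o (false, false) = id := by
    funext p; simp [modify]
  rw [e1, e2, e3, e4, Finsupp.mapDomain_id]
  simp
  abel

/-- a product with a constant -/
lemma albanese_sub_TS (a : ((curve h₁).prod (curve h₂)).Cycles)
    (ha : AlbaneseTrivial (curve h₁) (curve h₂) a) :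
    a - TS o a ∈ ((curve h₁).prod (curve h₂)).Rat := by
  rw [TS_apply]
  have i1 : Induced (curve h₁) ((curve h₁).prod (curve h₂)) (fun x => (x, o.2)) := by
    intro K _ _ hK c
    exact ⟨(c, Sum.inl o.2), fun v => rfl⟩
  have i2 : Induced (curve h₂) ((curve h₁).prod (curve h₂)) (fun y => (o.1, y)) := by
    intro K _ _ hK c
    exact ⟨(Sum.inl o.1, c), fun v => rfl⟩
  have i3 : Induced (curve h₁) ((curve h₁).prod (curve h₂)) (fun _ => o) := by
    intro K _ _ hK c
    exact ⟨(Sum.inl o.1, Sum.inl o.2), fun v => rfl⟩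
  have r1 := map_rat _ _ _ i1 ha.1
  have r2 := map_rat _ _ _ i2 ha.2
  have r3 := map_rat _ _ _ i3 ha.1
  rw [← Finsupp.mapDomain_comp] at r1 r2 r3
  have e : a - (a - Finsupp.mapDomain (fun p => (p.1, o.2)) a -
      Finsupp.mapDomain (fun p => (o.1, p.2)) a + Finsupp.mapDomain (fun _ => o) a) =
      Finsupp.mapDomain ((fun x => (x, o.2)) ∘ Prod.fst) a +
      Finsupp.mapDomain ((fun y => (o.1, y)) ∘ Prod.snd) a -
      Finsupp.mapDomain ((fun _ => o) ∘ Prod.fst) a := by
    have : ∀ A B C D : ((curve h₁).prod (curve h₂)).Cycles, A - (A - B - C + D) = B + C - D := by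
      intro A B C D; abel
    exact this _ _ _ _
  rw [e]
  exact AddSubgroup.sub_mem _ (AddSubgroup.add_mem _ r1 r2) r3

/-- the cycle `(x_1 - o) × (y_1 - o') × ⋯ × (x_n - o) × (y_n - o')` -/
noncomputable def tp (p : Fin n → Place k F₁ × Place k F₂) :
    (Fin n → Place k F₁ × Place k F₂) →₀ ℤ :=
  ext' (fun i => TS o (Finsupp.single (p i) 1))

omit [IsAlgClosed k] [CharZero k] in
lemma tp_eq (p : Fin n → Place k F₁ × Place k F₂) :
    tp n o p = ∑ s : Fin n → Bool × Bool, (∏ i, sgnb (s i)) •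
      Finsupp.single (fun i => modify o (s i) (p i)) 1 := by
  unfold tp
  have h1 : ∀ i, TS o (Finsupp.single (p i) 1) =
      ∑ b : Bool × Bool, sgnb b • Finsupp.single (modify o b (p i)) (1 : ℤ) := by
    intro i
    unfold TS
    simp [Finsupp.lmapDomain_apply, Finsupp.mapDomain_single]
  simp only [h1]
  rw [← extM_apply, MultilinearMap.map_sum]
  apply Finset.sum_congr rfl
  intro s _
  rw [MultilinearMap.map_smul_univ, extM_apply, ext'_single]

/-- the linear extension of `tp` -/
noncomputable def TT : ((Fin n → Place k F₁ × Place k F₂) →₀ ℤ) →ₗ[ℤ]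
    ((Fin n → Place k F₁ × Place k F₂) →₀ ℤ) :=
  Finsupp.linearCombination ℤ (tp n o)

omit [IsAlgClosed k] [CharZero k] in
lemma TT_single (p : Fin n → Place k F₁ × Place k F₂) :
    TT n o (Finsupp.single p 1) = tp n o p := by
  unfold TT
  rw [Finsupp.linearCombination_single, one_smul]

omit [IsAlgClosed k] [CharZero k] in
lemma TT_eq (z : (Fin n → Place k F₁ × Place k F₂) →₀ ℤ) :
    TT n o z = ∑ s : Fin n → Bool × Bool, (∏ i, sgnb (s i)) •
      Finsupp.mapDomain (fun (p : Fin n → Place k F₁ × Place k F₂) i => modify o (s i) (p i)) z := by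
  have h : TT n o = ∑ s : Fin n → Bool × Bool, (∏ i, sgnb (s i)) •
      Finsupp.lmapDomain ℤ ℤ (fun (p : Fin n → Place k F₁ × Place k F₂) i =>
        modify o (s i) (p i)) := by
    apply Finsupp.lhom_ext'
    intro p
    apply LinearMap.ext_ring
    simp only [LinearMap.comp_apply, Finsupp.lsingle_apply, TT_single, tp_eq, LinearMap.sum_apply,
      LinearMap.smul_apply, Finsupp.lmapDomain_apply, Finsupp.mapDomain_single]
  rw [h]
  simp [Finsupp.lmapDomain_apply]

lemma TT_rat (z : (((curve h₁).prod (curve h₂)).pow n).Cycles)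
    (hz : z ∈ (((curve h₁).prod (curve h₂)).pow n).Rat) :
    TT n o z ∈ (((curve h₁).prod (curve h₂)).pow n).Rat := by
  rw [TT_eq]
  apply AddSubgroup.sum_mem
  intro s _
  apply AddSubgroup.zsmul_mem
  apply map_rat _ _ _ _ hz
  intro K _ _ hK c
  refine ⟨fun i => (if (s i).1 then Sum.inl o.1 else (c i).1,
    if (s i).2 then Sum.inl o.2 else (c i).2), ?_⟩
  intro v
  funext i
  simp only [modify]
  ext1
  · by_cases hs : (s i).1
    · simp [hs]
    · simp [hs]
  · by_cases hs : (s i).2
    · simp [hs]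
    · simp [hs]

lemma cl_TT (z w : (((curve h₁).prod (curve h₂)).pow n).Cycles)
    (h : cl (((curve h₁).prod (curve h₂)).pow n) z = cl (((curve h₁).prod (curve h₂)).pow n) w) :
    cl (((curve h₁).prod (curve h₂)).pow n) (TT n o z) =
      cl (((curve h₁).prod (curve h₂)).pow n) (TT n o w) := by
  rw [cl_eq_iff] at h ⊢
  obtain ⟨m, hm, hm'⟩ := h
  refine ⟨m, hm, ?_⟩
  have := TT_rat h₁ h₂ n o _ hm'
  rwa [map_nsmul, map_sub] at this

omit [IsAlgClosed k] [CharZero k] in
lemma tp_zero_left (p : Fin n → Place k F₁ × Place k F₂) (j : Fin n) (hj : (p j).1 = o.1) :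
    tp n o p = 0 := by
  unfold tp
  rw [← extM_apply]
  apply MultilinearMap.map_coord_zero _ j
  rw [TS_apply]
  simp only [Finsupp.mapDomain_single]
  have e : p j = (o.1, (p j).2) := by
    ext1
    · exact hj
    · rfl
  rw [e]
  simp

omit [IsAlgClosed k] [CharZero k] in
lemma tp_zero_right (p : Fin n → Place k F₁ × Place k F₂) (j : Fin n) (hj : (p j).2 = o.2) :
    tp n o p = 0 := by
  unfold tp
  rw [← extM_apply]
  apply MultilinearMap.map_coord_zero _ j
  rw [TS_apply]
  simp only [Finsupp.mapDomain_single]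
  have e : p j = ((p j).1, o.2) := by
    ext1
    · rfl
    · exact hj
  rw [e]
  simp

end product

end VC
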