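import Mathlib
import Pool.Agent.Helper26.VC.Product

/-!
# The alternating sum of Albanese trivial cycles on a product of two curves
-/

namespace VC

open Function

universe u

section

variable {k : Type u} [Field k] [IsAlgClosed k] [CharZero k]
  {F₁ F₂ : Type u} [Field F₁] [Algebra k F₁] [Field F₂] [Algebra k F₂]
  (h₁ : IsFunctionField k F₁) (h₂ : IsFunctionField k F₂) (n : ℕ)
  (o : Place k F₁ × Place k F₂)

/-- symmetrization over `g₁ + 1` positions in the first factor kills the cycles `tp` -/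
lemma rel_left (g : ℕ) (hg : ∀ D : Place k F₁ →₀ ℤ,
      (D.sum fun _ m => m) + 1 ≤ (Module.finrank k (riemannRochSpace k F₁ D) : ℤ) + g)
    (J : Finset (Fin n)) (hJ : J.card = g + 1) (x : Fin n → Place k F₁)
    (q : Fin n → Place k F₂) :
    ∑ τ ∈ permOn J, cl (((curve h₁).prod (curve h₂)).pow n)
      (tp n o (fun i => (x (τ i), q i))) = 0 := by
  classical
  let ins : (J → Place k F₁) → (Fin n → Place k F₁ × Place k F₂) :=
    fun w i => (if h : i ∈ J then w ⟨i, h⟩ else x i, q i)
  obtain ⟨y, ⟨j, hj⟩, hcl⟩ := move_sum h₁ g hg (J := J) (by simpa using hJ)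
    (((curve h₁).prod (curve h₂)).pow n) ins (by
    intro K _ _ hK z
    refine ⟨fun i => (if h : i ∈ J then z ⟨i, h⟩ else Sum.inl (x i), Sum.inl (q i)), ?_⟩
    intro v
    funext i
    simp only [ins]
    ext1
    · by_cases h : i ∈ J
      · simp [h]
      · simp [h]
    · rfl) (fun j => x j.1) o.1
  have h3 := cl_TT h₁ h₂ n o _ _ hcl
  simp only [map_sum, TT_single] at h3
  have h4 : ∀ τ : Equiv.Perm J, tp n o (ins (y ∘ τ)) = 0 := by
    intro τ
    apply tp_zero_left n o _ (τ⁻¹ j).1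
    simp only [ins]
    rw [dif_pos (τ⁻¹ j).2]
    simp [hj]
  simp only [h4, map_zero, Finset.sum_const_zero] at h3
  rw [sum_permOn_ofSubtype, ← h3]
  apply Finset.sum_congr rfl
  intro τ _
  congr 2
  funext i
  simp only [ins]
  by_cases h : i ∈ J
  · rw [dif_pos h, Equiv.Perm.ofSubtype_apply_of_mem τ h]
    rfl
  · rw [dif_neg h, Equiv.Perm.ofSubtype_apply_of_not_mem τ h]

/-- symmetrization over `g₂ + 1` positions in the second factor kills the cycles `tp` -/
lemma rel_right (g : ℕ) (hg : ∀ D : Place k F₂ →₀ ℤ,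
      (D.sum fun _ m => m) + 1 ≤ (Module.finrank k (riemannRochSpace k F₂ D) : ℤ) + g)
    (J : Finset (Fin n)) (hJ : J.card = g + 1) (x : Fin n → Place k F₁)
    (q : Fin n → Place k F₂) :
    ∑ τ ∈ permOn J, cl (((curve h₁).prod (curve h₂)).pow n)
      (tp n o (fun i => (x i, q (τ i)))) = 0 := by
  classical
  let ins : (J → Place k F₂) → (Fin n → Place k F₁ × Place k F₂) :=
    fun w i => (x i, if h : i ∈ J then w ⟨i, h⟩ else q i)
  obtain ⟨y, ⟨j, hj⟩, hcl⟩ := move_sum h₂ g hg (J := J) (by simpa using hJ)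
    (((curve h₁).prod (curve h₂)).pow n) ins (by
    intro K _ _ hK z
    refine ⟨fun i => (Sum.inl (x i), if h : i ∈ J then z ⟨i, h⟩ else Sum.inl (q i)), ?_⟩
    intro v
    funext i
    simp only [ins]
    ext1
    · rfl
    · by_cases h : i ∈ J
      · simp [h]
      · simp [h]) (fun j => q j.1) o.2
  have h3 := cl_TT h₁ h₂ n o _ _ hcl
  simp only [map_sum, TT_single] at h3
  have h4 : ∀ τ : Equiv.Perm J, tp n o (ins (y ∘ τ)) = 0 := by
    intro τ
    apply tp_zero_right n o _ (τ⁻¹ j).1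
    simp only [ins]
    rw [dif_pos (τ⁻¹ j).2]
    simp [hj]
  simp only [h4, map_zero, Finset.sum_const_zero] at h3
  rw [sum_permOn_ofSubtype, ← h3]
  apply Finset.sum_congr rfl
  intro τ _
  congr 2
  funext i
  simp only [ins]
  by_cases h : i ∈ J
  · rw [dif_pos h, Equiv.Perm.ofSubtype_apply_of_mem τ h]
    rfl
  · rw [dif_neg h, Equiv.Perm.ofSubtype_apply_of_not_mem τ h]

/-- the alternating sum of the basic cycles vanishes -/
lemma alternating_tp (g₁ g₂ : ℕ) (hg₁ : ∀ D : Place k F₁ →₀ ℤ,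
      (D.sum fun _ m => m) + 1 ≤ (Module.finrank k (riemannRochSpace k F₁ D) : ℤ) + g₁)
    (hg₂ : ∀ D : Place k F₂ →₀ ℤ,
      (D.sum fun _ m => m) + 1 ≤ (Module.finrank k (riemannRochSpace k F₂ D) : ℤ) + g₂)
    (hn : g₁ * g₂ < n) (p : Fin n → Place k F₁ × Place k F₂) :
    ∑ σ : Equiv.Perm (Fin n), ((Equiv.Perm.sign σ : ℤˣ) : ℤ) •
      cl (((curve h₁).prod (curve h₂)).pow n) (tp n o (fun i => p (σ i))) = 0 := by
  classical
  set X := ((curve h₁).prod (curve h₂)).pow n with hX
  let x : Fin n → Place k F₁ := fun i => (p i).1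
  let y : Fin n → Place k F₂ := fun i => (p i).2
  let f : Equiv.Perm (Fin n) → ChowQ X := fun κ =>
    ∑ σ : Equiv.Perm (Fin n), ((Equiv.Perm.sign σ : ℤˣ) : ℤ) •
      cl X (tp n o (fun i => (x (σ i), y (κ (σ i)))))
  have hf : f = 0 := by
    apply comb_zero g₁ g₂ (by simpa using hn) f
    · -- antisymmetrizers
      intro κ J hJ
      have e1 : ∀ τ : Equiv.Perm (Fin n), ((Equiv.Perm.sign τ : ℤˣ) : ℤ) • f (κ * τ) =
          ∑ σ : Equiv.Perm (Fin n), ((Equiv.Perm.sign σ : ℤˣ) : ℤ) •
            cl X (tp n o (fun i => (x (τ⁻¹ (σ i)), y (κ (σ i))))) := by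
        intro τ
        simp only [f]
        rw [Finset.smul_sum]
        refine Fintype.sum_equiv (Equiv.mulLeft τ) _ _ (fun σ => ?_)
        have e0 : ∀ i, τ⁻¹ (τ (σ i)) = σ i := fun i => τ.symm_apply_apply _
        simp only [Equiv.coe_mulLeft, Equiv.Perm.mul_apply, e0, smul_smul,
          Equiv.Perm.sign_mul, Units.val_mul]
      rw [Finset.sum_congr rfl (fun τ _ => e1 τ), Finset.sum_comm]
      apply Finset.sum_eq_zero
      intro σ _
      rw [← Finset.smul_sum]
      have e2 : ∑ τ ∈ permOn J, cl X (tp n o (fun i => (x (τ⁻¹ (σ i)), y (κ (σ i))))) =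
          ∑ τ ∈ permOn J, cl X (tp n o (fun i => (x (τ (σ i)), y (κ (σ i))))) := by
        refine Finset.sum_nbij' (fun τ => τ⁻¹) (fun τ => τ⁻¹) ?_ ?_ ?_ ?_ ?_
        · intro τ hτ
          rw [mem_permOn] at hτ ⊢
          intro i hi
          rw [Equiv.Perm.inv_eq_iff_eq, hτ i hi]
        · intro τ hτ
          rw [mem_permOn] at hτ ⊢
          intro i hi
          rw [Equiv.Perm.inv_eq_iff_eq, hτ i hi]
        · intro τ _; simp
        · intro τ _; simp
        · intro τ _; rfl
      rw [e2, sum_permOn_conj J σ]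
      have e3 := rel_left h₁ h₂ n o g₁ hg₁ (J.map σ.symm.toEmbedding)
        (by rw [Finset.card_map, hJ]) (fun i => x (σ i)) (fun i => y (κ (σ i)))
      have e4 : ∀ τ : Equiv.Perm (Fin n), (fun i => (x ((σ * τ * σ⁻¹) (σ i)), y (κ (σ i)))) =
          (fun i => ((fun i => x (σ i)) (τ i), y (κ (σ i)))) := by
        intro τ
        funext i
        simp
      simp only [e4]
      rw [e3, smul_zero]
    · -- symmetrizers
      intro κ J hJ
      simp only [f]
      rw [Finset.sum_comm]
      apply Finset.sum_eq_zero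
      intro σ _
      rw [← Finset.smul_sum, sum_permOn_conj J σ]
      have e3 := rel_right h₁ h₂ n o g₂ hg₂ (J.map σ.symm.toEmbedding)
        (by rw [Finset.card_map, hJ]) (fun i => x (σ i)) (fun i => y (κ (σ i)))
      have e4 : ∀ τ : Equiv.Perm (Fin n), (fun i => (x (σ i), y ((κ * (σ * τ * σ⁻¹)) (σ i)))) =
          (fun i => (x (σ i), (fun i => y (κ (σ i))) (τ i))) := by
        intro τ
        funext i
        simp
      simp only [e4]
      rw [e3, smul_zero]
  have h0 := congrFun hf 1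
  simp only [f, Pi.zero_apply, Equiv.Perm.one_apply] at h0
  exact h0

lemma cl_ext'_congr (X : Variety k) (hconst : ∀ (K : Type u) [Field K] [Algebra k K]
    (hK : IsFunctionField k K) (p : X.Pt), ∃ c : X.Mor K, ∀ v, X.eval hK c v = p)
    (a b : Fin n → X.Cycles) (h : ∀ i, a i - b i ∈ X.Rat) :
    cl (X.pow n) (ext' a) = cl (X.pow n) (ext' b) := by
  classical
  have key : ∀ S : Finset (Fin n), cl (X.pow n) (ext' (S.piecewise b a)) =
      cl (X.pow n) (ext' a) := by
    intro S
    induction S using Finset.induction_on with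
    | empty => rw [Finset.piecewise_empty]
    | insert i S hi ih =>
      rw [← ih, Finset.piecewise_insert]
      set c := S.piecewise b a with hc
      have hci : c i = a i := by rw [hc, Finset.piecewise_eq_of_notMem _ _ _ hi]
      have h1 : c = update c i (a i) := by
        rw [← hci, update_eq_self]
      have h2 : ext' (update c i (b i)) - ext' c = - ext' (update c i (a i - b i)) := by
        have h3 := MultilinearMap.map_update_sub (extM X.Pt n) c i (a i) (b i)
        rw [extM_apply, extM_apply, extM_apply] at h3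
        rw [h3, ← h1]
        abel
      rw [← sub_eq_zero, ← map_sub, h2, map_neg, neg_eq_zero]
      apply cl_of_mem
      apply ext'_mem_rat X hconst i
      rw [update_self]
      exact h i
  have := key Finset.univ
  rw [Finset.piecewise_univ] at this
  exact this.symm

/-- The alternating sum of the exterior products of `n > g₁ g₂` Albanese trivial zero-cycles on a
product of two curves of genus `g₁` and `g₂` is torsion in the Chow group of the `n`-fold
self-product. -/
theorem alternating_product (g₁ g₂ : ℕ) (hg₁ : ∀ D : Place k F₁ →₀ ℤ,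
      (D.sum fun _ m => m) + 1 ≤ (Module.finrank k (riemannRochSpace k F₁ D) : ℤ) + g₁)
    (hg₂ : ∀ D : Place k F₂ →₀ ℤ,
      (D.sum fun _ m => m) + 1 ≤ (Module.finrank k (riemannRochSpace k F₂ D) : ℤ) + g₂)
    (hn : g₁ * g₂ < n) (a : Fin n → ((curve h₁).prod (curve h₂)).Cycles)
    (ha : ∀ i, AlbaneseTrivial (curve h₁) (curve h₂) (a i)) :
    ∃ m : ℕ, 0 < m ∧ m • ∑ σ : Equiv.Perm (Fin n), ((Equiv.Perm.sign σ : ℤˣ) : ℤ) •
      extProd (fun i => a (σ i)) ∈ (((curve h₁).prod (curve h₂)).pow n).Rat := by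
  classical
  obtain ⟨t₁, ht₁, _⟩ := id h₁
  obtain ⟨t₂, ht₂, _⟩ := id h₂
  obtain ⟨o₁, _⟩ := exists_place h₁ ht₁
  obtain ⟨o₂, _⟩ := exists_place h₂ ht₂
  let o : Place k F₁ × Place k F₂ := (o₁, o₂)
  rw [← cl_eq_zero_iff]
  let Θ : MultilinearMap ℤ (fun _ : Fin n => ((Place k F₁ × Place k F₂) →₀ ℤ))
      (ChowQ (((curve h₁).prod (curve h₂)).pow n)) :=
    ∑ σ : Equiv.Perm (Fin n), ((Equiv.Perm.sign σ : ℤˣ) : ℤ) •
      (cl (((curve h₁).prod (curve h₂)).pow n)).compMultilinearMap
        (((extM (Place k F₁ × Place k F₂) n).compLinearMap (fun _ => TS o)).domDomCongr σ)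
  have hΘ : ∀ b : Fin n → ((Place k F₁ × Place k F₂) →₀ ℤ), Θ b =
      ∑ σ : Equiv.Perm (Fin n), ((Equiv.Perm.sign σ : ℤˣ) : ℤ) •
        cl (((curve h₁).prod (curve h₂)).pow n) (ext' (fun i => TS o (b (σ i)))) := by
    intro b
    simp only [Θ, sum_apply, smul_apply]
    rfl
  have hΘ0 : Θ = 0 := by
    apply Module.Basis.ext_multilinear (fun _ => (Finsupp.basisSingleOne : Module.Basis
      (Place k F₁ × Place k F₂) ℤ _))
    intro p
    rw [hΘ, zero_apply]
    simp only [Finsupp.coe_basisSingleOne]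
    exact alternating_tp h₁ h₂ n o g₁ g₂ hg₁ hg₂ hn p
  have h1 := hΘ a
  rw [hΘ0, zero_apply] at h1
  rw [map_sum, h1]
  apply Finset.sum_congr rfl
  intro σ _
  rw [map_smul]
  congr 1
  apply cl_ext'_congr
  · intro K _ _ hK p
    exact ⟨(Sum.inl p.1, Sum.inl p.2), fun v => rfl⟩
  · intro i
    exact albanese_sub_TS h₁ h₂ o _ (ha (σ i))

end

end VC
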