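import Mathlib
import Pool.Agent.Helper26.VC.Comb

/-!
# Functions on the symmetric group on pairs

A function on the permutations of `Fin n × Bool` killed by symmetrizers on `g + 1` letters,
invariant under the exchange of the two members of a pair, and changing sign under the exchange
of two pairs, vanishes if `n > g (g - 1) / 2`.
-/

namespace VC

open Equiv Finset Function

variable {n : ℕ} {X : Type*} [AddCommGroup X]

/-- exchange of the two members of the `i`-th pair -/
def flipPair (i : Fin n) : Perm (Fin n × Bool) := swap (i, false) (i, true)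

/-- exchange of two pairs -/
def exchPair (i j : Fin n) : Perm (Fin n × Bool) := Equiv.prodCongrLeft (fun _ : Bool => swap i j)

lemma flipPair_apply (i l : Fin n) (b : Bool) :
    flipPair i (l, b) = if l = i then (l, !b) else (l, b) := by
  unfold flipPair
  by_cases h : l = i
  · subst h
    rw [if_pos rfl]
    cases b
    · rw [swap_apply_left]; rfl
    · rw [swap_apply_right]; rfl
  · rw [if_neg h, swap_apply_of_ne_of_ne (by simp [h]) (by simp [h])]

lemma exchPair_apply (i j l : Fin n) (b : Bool) : exchPair i j (l, b) = (swap i j l, b) := rfl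

lemma sign_flipPair (i : Fin n) : Perm.sign (flipPair i) = -1 :=
  Perm.sign_swap (by simp)

lemma sign_exchPair {i j : Fin n} (h : i ≠ j) : Perm.sign (exchPair i j) = 1 := by
  unfold exchPair
  rw [Perm.sign_prodCongrLeft]
  simp [Perm.sign_swap h]

/-- the functions with the required symmetry under left translations -/
def pairSym (n : ℕ) (X : Type*) [AddCommGroup X] : AddSubgroup (Perm (Fin n × Bool) → X) where
  carrier := {f | (∀ i κ, f (flipPair i * κ) = f κ) ∧
    (∀ i j, i ≠ j → ∀ κ, f (exchPair i j * κ) = - f κ)}
  zero_mem' := by simp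
  add_mem' := by
    rintro f g ⟨hf, hf'⟩ ⟨hg, hg'⟩
    refine ⟨fun i κ => ?_, fun i j hij κ => ?_⟩
    · simp only [Pi.add_apply]; rw [hf, hg]
    · simp only [Pi.add_apply]; rw [hf' i j hij, hg' i j hij]; abel
  neg_mem' := by
    rintro f ⟨hf, hf'⟩
    refine ⟨fun i κ => ?_, fun i j hij κ => ?_⟩
    · simp only [Pi.neg_apply]; rw [hf]
    · simp only [Pi.neg_apply]; rw [hf' i j hij]

theorem pair_zero [Module ℚ X] (g : ℕ) (hn : g.choose 2 < n) (f : Perm (Fin n × Bool) → X)
    (h1 : ∀ κ, ∀ J : Finset (Fin n × Bool), #J = g + 1 → ∑ τ ∈ permOn J, f (κ * τ) = 0)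
    (h2 : ∀ i κ, f (flipPair i * κ) = f κ)
    (h3 : ∀ i j, i ≠ j → ∀ κ, f (exchPair i j * κ) = - f κ) : f = 0 := by
  by_contra hne
  obtain ⟨f', hf', hne', c, hc, hinv⟩ := exists_coloring_sign
    ((symKilled g ⊓ pairSym n X : AddSubgroup (Perm (Fin n × Bool) → X)))
    (fun f hf τ => ⟨symKilled_translate g f hf.1 τ, fun i κ => by
        have := hf.2.1 i (κ * τ)
        rwa [← mul_assoc] at this, fun i j hij κ => by
        have := hf.2.2 i j hij (κ * τ)
        rwa [← mul_assoc] at this⟩) g
    (fun f hf J hJ κ => hf.1 κ J hJ) ⟨f, ⟨h1, h2, h3⟩, hne⟩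
  obtain ⟨κ, hκ⟩ : ∃ κ, f' κ ≠ 0 := by
    by_contra hcon
    push Not at hcon
    exact hne' (funext hcon)
  -- the colouring of the labels
  let c' : Fin n × Bool → Fin n × Bool := fun l => c (κ⁻¹ l)
  have key : ∀ h : Perm (Fin n × Bool), (∀ l, c' (h l) = c' l) →
      f' (h * κ) = ((Perm.sign h : ℤˣ) : ℤ) • f' κ := by
    intro h hh
    have e : h * κ = κ * (κ⁻¹ * h * κ) := by group
    rw [e, hinv]
    · congr 2
      simp only [Perm.sign_mul, Perm.sign_inv]
      rw [mul_comm, ← mul_assoc]
      rcases Int.units_eq_one_or (Perm.sign κ) with h | h <;> simp [h]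
    · intro i
      have h5 := hh (κ i)
      have h6 : κ⁻¹ (κ i) = i := κ.symm_apply_apply i
      simp only [c', h6] at h5
      exact h5
  have two : ∀ x : X, x = - x → x = 0 := by
    intro x hx
    have h4 : (2 : ℚ) • x = 0 := by
      rw [two_smul]
      nth_rewrite 2 [hx]
      simp
    rcases smul_eq_zero.mp h4 with h | h
    · norm_num at h
    · exact h
  have hdiff : ∀ i : Fin n, c' (i, false) ≠ c' (i, true) := by
    intro i hi
    have h4 := key (flipPair i) (fun l => comp_swap (c := c') hi l)
    rw [hf'.2.1, sign_flipPair] at h4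
    apply hκ
    apply two
    simpa using h4
  have hexch : ∀ i j : Fin n, i ≠ j → ¬ (c' (i, false) = c' (j, false) ∧ c' (i, true) = c' (j, true)) := by
    rintro i j hij ⟨ha, hb⟩
    have h4 := key (exchPair i j) (fun l => by
      obtain ⟨l, b⟩ := l
      rw [exchPair_apply]
      by_cases hli : l = i
      · subst hli
        rw [swap_apply_left]
        cases b
        · exact ha.symm
        · exact hb.symm
      · by_cases hlj : l = j
        · subst hlj
          rw [swap_apply_right]
          cases b
          · exact ha
          · exact hb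
        · rw [swap_apply_of_ne_of_ne hli hlj])
    rw [hf'.2.2 i j hij, sign_exchPair hij] at h4
    apply hκ
    apply two
    simpa using h4.symm
  have hexch' : ∀ i j : Fin n, i ≠ j →
      ¬ (c' (i, false) = c' (j, true) ∧ c' (i, true) = c' (j, false)) := by
    rintro i j hij ⟨ha, hb⟩
    have h4 := key (flipPair i * (flipPair j * exchPair i j)) (fun l => by
      obtain ⟨l, b⟩ := l
      rw [Perm.mul_apply, Perm.mul_apply, exchPair_apply]
      by_cases hli : l = i
      · subst hli
        rw [swap_apply_left, flipPair_apply j j b, if_pos rfl, flipPair_apply l j (!b),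
          if_neg hij.symm]
        cases b
        · exact ha.symm
        · exact hb.symm
      · by_cases hlj : l = j
        · subst hlj
          rw [swap_apply_right, flipPair_apply l i b, if_neg hij, flipPair_apply i i b, if_pos rfl]
          cases b
          · exact hb
          · exact ha
        · rw [swap_apply_of_ne_of_ne hli hlj, flipPair_apply j l b, if_neg hlj,
            flipPair_apply i l b, if_neg hli])
    rw [mul_assoc, mul_assoc, hf'.2.1, hf'.2.1, hf'.2.2 i j hij, Perm.sign_mul, Perm.sign_mul,
      sign_flipPair, sign_flipPair, sign_exchPair hij] at h4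
    apply hκ
    apply two
    simpa using h4.symm
  -- the two-element sets of colours are pairwise different
  let T := univ.image c
  let s : Fin n → Finset (Fin n × Bool) := fun i => {c' (i, false), c' (i, true)}
  have hs : ∀ i ∈ (univ : Finset (Fin n)), s i ∈ T.powersetCard 2 := by
    intro i _
    rw [mem_powersetCard]
    constructor
    · intro l hl
      simp only [s, mem_insert, mem_singleton] at hl
      rcases hl with rfl | rfl <;> exact mem_image_of_mem c (mem_univ _)
    · exact card_pair (hdiff i)
  have hinj : Set.InjOn s (univ : Finset (Fin n)) := by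
    intro i _ j _ hij
    by_contra hne
    have h5 : c' (i, false) ∈ s j := by rw [← hij]; simp [s]
    have h6 : c' (i, true) ∈ s j := by rw [← hij]; simp [s]
    simp only [s, mem_insert, mem_singleton] at h5 h6
    rcases h5 with h5 | h5 <;> rcases h6 with h6 | h6
    · exact hdiff i (h5.trans h6.symm)
    · exact hexch i j hne ⟨h5, h6⟩
    · exact hexch' i j hne ⟨h5, h6⟩
    · exact hdiff i (h5.trans h6.symm)
  have h7 := Finset.card_le_card_of_injOn s hs hinj
  rw [card_powersetCard, card_univ, Fintype.card_fin] at h7
  have h8 : (#T).choose 2 ≤ g.choose 2 := Nat.choose_le_choose 2 hc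
  omega

end VC
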