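import Mathlib
import Pool.Agent.Helper26.VC.Final
import Pool.Agent.Helper26.VC.SymComb

/-!
# The alternating sum for swap-invariant cycles on the square of a curve
-/

namespace VC

open Function

universe u

section

variable {k : Type u} [Field k] [IsAlgClosed k] [CharZero k]
  {F : Type u} [Field F] [Algebra k F] (hF : IsFunctionField k F) (n : ℕ) (o : Place k F)

/-- the point of the `n`-fold product of `C × C` with the given coordinates -/
def ptOf {n : ℕ} (w : Fin n × Bool → Place k F) : Fin n → Place k F × Place k F :=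
  fun i => (w (i, false), w (i, true))

lemma rel_pairs (g : ℕ) (hg : ∀ D : Place k F →₀ ℤ,
      (D.sum fun _ m => m) + 1 ≤ (Module.finrank k (riemannRochSpace k F D) : ℤ) + g)
    (J : Finset (Fin n × Bool)) (hJ : J.card = g + 1) (x : Fin n × Bool → Place k F) :
    ∑ τ ∈ permOn J, cl (((curve hF).prod (curve hF)).pow n)
      (tp n (o, o) (ptOf (fun l => x (τ l)))) = 0 := by
  classical
  let w' : (J → Place k F) → (Fin n × Bool → Place k F) :=
    fun w l => if h : l ∈ J then w ⟨l, h⟩ else x l
  obtain ⟨y, ⟨j, hj⟩, hcl⟩ := move_sum hF g hg (J := J) (by simpa using hJ)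
    (((curve hF).prod (curve hF)).pow n) (fun w => ptOf (w' w)) (by
    intro K _ _ hK z
    let zz : Fin n × Bool → (curve hF).Mor K := fun l => if h : l ∈ J then z ⟨l, h⟩ else Sum.inl (x l)
    have hzz : ∀ v l, (curve hF).eval hK (zz l) v = w' (fun j => (curve hF).eval hK (z j) v) l := by
      intro v l
      simp only [zz, w']
      by_cases h : l ∈ J
      · simp [h]
      · simp [h]
    refine ⟨fun i => (zz (i, false), zz (i, true)), ?_⟩
    intro v
    funext i
    simp only [ptOf]
    ext1
    · exact hzz v (i, false)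
    · exact hzz v (i, true)) (fun j => x j.1) o
  have h3 := cl_TT hF hF n (o, o) _ _ hcl
  simp only [map_sum, TT_single] at h3
  have h4 : ∀ τ : Equiv.Perm J, tp n (o, o) (ptOf (w' (y ∘ τ))) = 0 := by
    intro τ
    have h5 : w' (y ∘ τ) (τ⁻¹ j).1 = o := by
      simp only [w']
      rw [dif_pos (τ⁻¹ j).2]
      simp [hj]
    obtain ⟨⟨i, b⟩, hib⟩ : ∃ l, l = (τ⁻¹ j).1 := ⟨_, rfl⟩
    rw [← hib] at h5
    cases b
    · exact tp_zero_left n (o, o) _ i h5
    · exact tp_zero_right n (o, o) _ i h5
  simp only [h4, map_zero, Finset.sum_const_zero] at h3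
  rw [sum_permOn_ofSubtype, ← h3]
  apply Finset.sum_congr rfl
  intro τ _
  congr 3
  funext l
  simp only [w']
  by_cases h : l ∈ J
  · rw [dif_pos h, Equiv.Perm.ofSubtype_apply_of_mem τ h]
    rfl
  · rw [dif_neg h, Equiv.Perm.ofSubtype_apply_of_not_mem τ h]

/-- the element of the hyperoctahedral group -/
def hyp {n : ℕ} (σ : Equiv.Perm (Fin n)) (s : Fin n → Bool) (l : Fin n × Bool) : Fin n × Bool :=
  (σ l.1, xor l.2 (s (σ l.1)))

lemma alternating_sym (g : ℕ) (hg : ∀ D : Place k F →₀ ℤ,
      (D.sum fun _ m => m) + 1 ≤ (Module.finrank k (riemannRochSpace k F D) : ℤ) + g)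
    (hn : g.choose 2 < n) (x : Fin n × Bool → Place k F) :
    ∑ σ : Equiv.Perm (Fin n), ((Equiv.Perm.sign σ : ℤˣ) : ℤ) • ∑ s : Fin n → Bool,
      cl (((curve hF).prod (curve hF)).pow n)
        (tp n (o, o) (ptOf (fun l => x (hyp σ s l)))) = 0 := by
  classical
  let f : Equiv.Perm (Fin n × Bool) → ChowQ (((curve hF).prod (curve hF)).pow n) := fun κ =>
    ∑ σ : Equiv.Perm (Fin n), ((Equiv.Perm.sign σ : ℤˣ) : ℤ) • ∑ s : Fin n → Bool,
      cl (((curve hF).prod (curve hF)).pow n)
        (tp n (o, o) (ptOf (fun l => x (hyp σ s (κ l)))))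
  have hf : f = 0 := by
    apply pair_zero g hn f
    · intro κ J hJ
      simp only [f]
      rw [Finset.sum_comm]
      apply Finset.sum_eq_zero
      intro σ _
      rw [← Finset.smul_sum, Finset.sum_comm]
      rw [Finset.sum_eq_zero, smul_zero]
      intro s _
      exact rel_pairs hF n o g hg J hJ (fun l => x (hyp σ s (κ l)))
    · intro i κ
      simp only [f]
      apply Finset.sum_congr rfl
      intro σ _
      congr 1
      let e : (Fin n → Bool) → (Fin n → Bool) := fun s => update s (σ i) (!(s (σ i)))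
      have he : Function.Involutive e := by
        intro s
        simp only [e]
        rw [update_idem, update_self, Bool.not_not, update_eq_self]
      refine Fintype.sum_equiv he.toPerm _ _ (fun s => ?_)
      congr 3
      funext l
      congr 1
      rw [Equiv.Perm.mul_apply]
      obtain ⟨⟨a, b⟩, hab⟩ : ∃ m, m = κ l := ⟨_, rfl⟩
      rw [← hab, flipPair_apply]
      simp only [hyp, Function.Involutive.coe_toPerm, e]
      by_cases hai : a = i
      · subst hai
        rw [if_pos rfl, update_self]
        simp only [Prod.mk.injEq, true_and]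
        cases b <;> cases s (σ a) <;> rfl
      · rw [if_neg hai, update_of_ne]
        exact fun h => hai (σ.injective h)
    · intro i j hij κ
      simp only [f]
      rw [← Finset.sum_neg_distrib]
      refine Fintype.sum_equiv (Equiv.mulRight (Equiv.swap i j)) _ _ (fun σ => ?_)
      have e : ∀ s l, hyp (σ * Equiv.swap i j) s (κ l) = hyp σ s ((exchPair i j * κ) l) :=
        fun s l => rfl
      rw [Equiv.coe_mulRight, Equiv.Perm.sign_mul, Equiv.Perm.sign_swap hij, ← neg_smul]
      simp only [e, mul_neg, mul_one, Units.val_neg, neg_neg]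
  have h0 := congrFun hf 1
  simp only [f, Pi.zero_apply, Equiv.Perm.one_apply] at h0
  exact h0

/-- The alternating sum of the exterior products of more than `g (g - 1) / 2` Albanese trivial
zero-cycles on `C × C` which are invariant under the exchange of the two factors is torsion in the
Chow group of the self-product, for a curve `C` of genus `g`. -/
theorem alternating_symSq (g : ℕ) (hg : ∀ D : Place k F →₀ ℤ,
      (D.sum fun _ m => m) + 1 ≤ (Module.finrank k (riemannRochSpace k F D) : ℤ) + g)
    (hn : g.choose 2 < n) (a : Fin n → ((curve hF).prod (curve hF)).Cycles)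
    (ha : ∀ i, AlbaneseTrivial (curve hF) (curve hF) (a i))
    (hs : ∀ i, Finsupp.mapDomain Prod.swap (a i) = a i) :
    ∃ m : ℕ, 0 < m ∧ m • ∑ σ : Equiv.Perm (Fin n), ((Equiv.Perm.sign σ : ℤˣ) : ℤ) •
      extProd (fun i => a (σ i)) ∈ (((curve hF).prod (curve hF)).pow n).Rat := by
  classical
  obtain ⟨t₁, ht₁, _⟩ := id hF
  obtain ⟨o, _⟩ := exists_place hF ht₁
  rw [← cl_eq_zero_iff]
  let Sy : (Place k F × Place k F →₀ ℤ) →ₗ[ℤ] (Place k F × Place k F →₀ ℤ) :=
    LinearMap.id + Finsupp.lmapDomain ℤ ℤ Prod.swap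
  let Θ : MultilinearMap ℤ (fun _ : Fin n => ((Place k F × Place k F) →₀ ℤ))
      (ChowQ (((curve hF).prod (curve hF)).pow n)) :=
    ∑ σ : Equiv.Perm (Fin n), ((Equiv.Perm.sign σ : ℤˣ) : ℤ) •
      (cl (((curve hF).prod (curve hF)).pow n)).compMultilinearMap
        (((extM (Place k F × Place k F) n).compLinearMap (fun _ => TS (o, o) ∘ₗ Sy)).domDomCongr σ)
  have hΘ : ∀ b : Fin n → ((Place k F × Place k F) →₀ ℤ), Θ b =
      ∑ σ : Equiv.Perm (Fin n), ((Equiv.Perm.sign σ : ℤˣ) : ℤ) •
        cl (((curve hF).prod (curve hF)).pow n) (ext' (fun i => TS (o, o) (Sy (b (σ i))))) := by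
    intro b
    simp only [Θ, sum_apply, smul_apply]
    rfl
  have hΘ0 : Θ = 0 := by
    apply Module.Basis.ext_multilinear (fun _ => (Finsupp.basisSingleOne : Module.Basis
      (Place k F × Place k F) ℤ _))
    intro p
    rw [hΘ, zero_apply]
    simp only [Finsupp.coe_basisSingleOne]
    let x : Fin n × Bool → Place k F := fun l => if l.2 then (p l.1).2 else (p l.1).1
    rw [← alternating_sym hF n o g hg hn x]
    apply Finset.sum_congr rfl
    intro σ _
    congr 1
    -- expansion of the symmetrized points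
    let fl : Bool → (Place k F × Place k F) → (Place k F × Place k F) :=
      fun b q => if b then q.swap else q
    have e1 : ∀ i, TS (o, o) (Sy (Finsupp.single (p (σ i)) 1)) =
        ∑ b : Bool, TS (o, o) (Finsupp.single (fl b (p (σ i))) 1) := by
      intro i
      rw [Fintype.sum_bool]
      simp only [Sy, LinearMap.add_apply, LinearMap.id_apply, Finsupp.lmapDomain_apply,
        Finsupp.mapDomain_single, map_add, fl]
      rw [add_comm]
      rfl
    simp only [e1]
    rw [← extM_apply, MultilinearMap.map_sum, map_sum]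
    let e : (Fin n → Bool) ≃ (Fin n → Bool) := Equiv.arrowCongr σ (Equiv.refl Bool)
    refine Fintype.sum_equiv e _ _ (fun s => ?_)
    congr 1
    change ext' _ = ext' _
    congr 1
    funext i
    congr 2
    have e2 : e s (σ i) = s i := by
      simp [e]
    simp only [ptOf, hyp, x, fl, e2]
    cases s i
    · simp
    · simp [Prod.swap]
  -- comparison
  have h1 := hΘ a
  rw [hΘ0, zero_apply] at h1
  have h2 : ∀ i, Sy (a i) = (2 : ℤ) • a i := by
    intro i
    simp only [Sy, LinearMap.add_apply, LinearMap.id_apply, Finsupp.lmapDomain_apply, hs]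
    rw [two_smul]
  have h3 : ∀ σ : Equiv.Perm (Fin n), ext' (fun i => TS (o, o) (Sy (a (σ i)))) =
      ((2 : ℤ) ^ n) • ext' (fun i => TS (o, o) (a (σ i))) := by
    intro σ
    simp only [h2, map_smul]
    rw [← extM_apply, MultilinearMap.map_smul_univ, extM_apply]
    simp
  simp only [h3, map_smul] at h1
  have h4 : ((2 : ℤ) ^ n) • ∑ σ : Equiv.Perm (Fin n), ((Equiv.Perm.sign σ : ℤˣ) : ℤ) •
      cl (((curve hF).prod (curve hF)).pow n) (ext' (fun i => TS (o, o) (a (σ i)))) = 0 := by
    rw [h1, Finset.smul_sum]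
    apply Finset.sum_congr rfl
    intro σ _
    rw [smul_comm]
  have h5 : ∑ σ : Equiv.Perm (Fin n), ((Equiv.Perm.sign σ : ℤˣ) : ℤ) •
      cl (((curve hF).prod (curve hF)).pow n) (ext' (fun i => TS (o, o) (a (σ i)))) = 0 := by
    rw [← Int.cast_smul_eq_zsmul ℚ] at h4
    rcases smul_eq_zero.mp h4 with h | h
    · exfalso
      have : ((2 : ℤ) ^ n : ℤ) ≠ 0 := by positivity
      exact this (by exact_mod_cast h)
    · exact h
  rw [map_sum, ← h5]
  apply Finset.sum_congr rfl
  intro σ _
  rw [map_smul]
  congr 1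
  apply cl_ext'_congr
  · intro K _ _ hK p
    exact ⟨(Sum.inl p.1, Sum.inl p.2), fun v => rfl⟩
  · intro i
    exact albanese_sub_TS hF hF (o, o) _ (ha (σ i))

end

end VC
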