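import Mathlib
import Pool.Agent.Helper26.VC.Cycles

/-!
# Symmetric squares
-/

namespace VC

universe u

/-- The symmetric square of a variety. Its closed points are the unordered pairs of closed points;
the morphisms from smooth projective curves are restricted to those which lift to the product,
which are given by unordered pairs of morphisms. (Morphisms which lift only after a double cover
of the source are not included; adding them could only enlarge the group of zero-cycles
rationally equivalent to zero.) -/
abbrev Variety.symSq {k : Type u} [Field k] (X : Variety k) : Variety k where
  Pt := Sym2 X.Pt
  Mor K _ _ := Sym2 (X.Mor K)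
  eval hK c v := c.map (fun m => X.eval hK m v)

/-- The zero-cycle `[x] + [y]` on `X` given by the point `{x, y}` of the symmetric square. -/
noncomputable def pairCycle {k : Type u} [Field k] (X : Variety k) (p : Sym2 X.Pt) : X.Cycles :=
  Sym2.lift ⟨fun x y => Finsupp.single x 1 + Finsupp.single y 1, fun _ _ => add_comm _ _⟩ p

/-- A zero-cycle `∑ m_j {x_j, y_j}` on the symmetric square of a curve is Albanese trivial if
`∑ m_j ([x_j] + [y_j])` is rationally equivalent to zero on the curve (the Albanese variety of the
symmetric square is the Jacobian, and the Albanese map is induced by `{x, y} ↦ x + y`). -/
def AlbaneseTrivialSym {k : Type u} [Field k] (X : Variety k) (a : X.symSq.Cycles) : Prop :=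
  (a.sum fun p m => m • pairCycle X p) ∈ X.Rat

end VC
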