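import Mathlib
import Pool.Agent.Helper26.VC.SymSq
import Pool.Agent.Helper26.VC.SymDefs

/-!
# The alternating sum of Albanese trivial cycles on a symmetric square
-/

namespace VC

open Function

universe u

section

variable {k : Type u} [Field k] (X : Variety k)

/-- the pullback of a point of the symmetric square -/
noncomputable def pullPt (p : Sym2 X.Pt) : (X.Pt × X.Pt) →₀ ℤ :=
  Sym2.lift ⟨fun x y => Finsupp.single (x, y) 1 + Finsupp.single (y, x) 1,
    fun _ _ => add_comm _ _⟩ p

/-- the pullback of a zero-cycle on the symmetric square -/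
noncomputable def pullCyc : (Sym2 X.Pt →₀ ℤ) →ₗ[ℤ] ((X.Pt × X.Pt) →₀ ℤ) :=
  Finsupp.linearCombination ℤ (pullPt X)

lemma pull_fst (a : Sym2 X.Pt →₀ ℤ) :
    Finsupp.mapDomain Prod.fst (pullCyc X a) = a.sum fun p m => m • pairCycle X p := by
  have h : Finsupp.lmapDomain ℤ ℤ Prod.fst ∘ₗ pullCyc X =
      Finsupp.linearCombination ℤ (pairCycle X) := by
    apply Finsupp.lhom_ext'
    intro p
    apply LinearMap.ext_ring
    induction p using Sym2.ind with
    | _ x y =>
      simp [pullCyc, pullPt, pairCycle, Finsupp.mapDomain_single, Finsupp.mapDomain_add]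
  exact congrArg (fun f => f a) h

lemma pull_snd (a : Sym2 X.Pt →₀ ℤ) :
    Finsupp.mapDomain Prod.snd (pullCyc X a) = a.sum fun p m => m • pairCycle X p := by
  have h : Finsupp.lmapDomain ℤ ℤ Prod.snd ∘ₗ pullCyc X =
      Finsupp.linearCombination ℤ (pairCycle X) := by
    apply Finsupp.lhom_ext'
    intro p
    apply LinearMap.ext_ring
    induction p using Sym2.ind with
    | _ x y =>
      simp [pullCyc, pullPt, pairCycle, Finsupp.mapDomain_single, Finsupp.mapDomain_add, add_comm]
  exact congrArg (fun f => f a) h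

lemma pull_swap (a : Sym2 X.Pt →₀ ℤ) :
    Finsupp.mapDomain Prod.swap (pullCyc X a) = pullCyc X a := by
  have h : Finsupp.lmapDomain ℤ ℤ Prod.swap ∘ₗ pullCyc X = pullCyc X := by
    apply Finsupp.lhom_ext'
    intro p
    apply LinearMap.ext_ring
    induction p using Sym2.ind with
    | _ x y =>
      simp [pullCyc, pullPt, Finsupp.mapDomain_single, Finsupp.mapDomain_add, add_comm]
  exact congrArg (fun f => f a) h

lemma push_pull (a : Sym2 X.Pt →₀ ℤ) :
    Finsupp.mapDomain (fun p : X.Pt × X.Pt => s(p.1, p.2)) (pullCyc X a) = (2 : ℤ) • a := by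
  have h : Finsupp.lmapDomain ℤ ℤ (fun p : X.Pt × X.Pt => s(p.1, p.2)) ∘ₗ pullCyc X =
      (2 : ℤ) • LinearMap.id := by
    apply Finsupp.lhom_ext'
    intro p
    apply LinearMap.ext_ring
    induction p using Sym2.ind with
    | _ x y =>
      have e : s(y, x) = s(x, y) := Sym2.eq_swap
      simp [pullCyc, pullPt, Finsupp.mapDomain_single, Finsupp.mapDomain_add, e, two_smul]
  exact congrArg (fun f => f a) h

lemma mapDomain_ext' {α β : Type u} {n : ℕ} (r : α → β) (b : Fin n → (α →₀ ℤ)) :
    Finsupp.mapDomain (fun (p : Fin n → α) i => r (p i)) (ext' b) =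
      ext' (fun i => Finsupp.mapDomain r (b i)) := by
  have h : (Finsupp.lmapDomain ℤ ℤ (fun (p : Fin n → α) i => r (p i))).compMultilinearMap
      (extM α n) = (extM β n).compLinearMap (fun _ => Finsupp.lmapDomain ℤ ℤ r) := by
    apply Module.Basis.ext_multilinear (fun _ => (Finsupp.basisSingleOne : Module.Basis α ℤ _))
    intro p
    simp only [Finsupp.coe_basisSingleOne, LinearMap.compMultilinearMap_apply, extM_apply,
      MultilinearMap.compLinearMap_apply, Finsupp.lmapDomain_apply, Finsupp.mapDomain_single,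
      ext'_single]
  exact congrArg (fun f => f b) h

end

section

variable {k : Type u} [Field k] [IsAlgClosed k] [CharZero k]
  {F : Type u} [Field F] [Algebra k F] (hF : IsFunctionField k F) (n : ℕ)

/-- The alternating sum of the exterior products of more than `g (g - 1) / 2` Albanese trivial
zero-cycles on the symmetric square of a curve of genus `g` is torsion in the Chow group of the
self-product. -/
theorem alternating_symSq' (g : ℕ) (hg : ∀ D : Place k F →₀ ℤ,
      (D.sum fun _ m => m) + 1 ≤ (Module.finrank k (riemannRochSpace k F D) : ℤ) + g)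
    (hn : g.choose 2 < n) (a : Fin n → (curve hF).symSq.Cycles)
    (ha : ∀ i, AlbaneseTrivialSym (curve hF) (a i)) :
    ∃ m : ℕ, 0 < m ∧ m • ∑ σ : Equiv.Perm (Fin n), ((Equiv.Perm.sign σ : ℤˣ) : ℤ) •
      extProd (fun i => a (σ i)) ∈ ((curve hF).symSq.pow n).Rat := by
  obtain ⟨m, hm, hmem⟩ := alternating_symSq hF n g hg hn (fun i => pullCyc (curve hF) (a i))
    (fun i => ⟨by rw [pull_fst]; exact ha i, by rw [pull_snd]; exact ha i⟩)
    (fun i => pull_swap (curve hF) (a i))
  have hind : Induced (((curve hF).prod (curve hF)).pow n) ((curve hF).symSq.pow n)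
      (fun (p : Fin n → Place k F × Place k F) i => s((p i).1, (p i).2)) := by
    intro K _ _ hK c
    exact ⟨fun i => s((c i).1, (c i).2), fun v => rfl⟩
  have h1 := map_rat _ _ _ hind hmem
  refine ⟨m * 2 ^ n, by positivity, ?_⟩
  have h2 : Finsupp.mapDomain (fun (p : Fin n → Place k F × Place k F) i => s((p i).1, (p i).2))
      (m • ∑ σ : Equiv.Perm (Fin n), ((Equiv.Perm.sign σ : ℤˣ) : ℤ) •
        ext' (fun i => pullCyc (curve hF) (a (σ i)))) =
      (m * 2 ^ n) • ∑ σ : Equiv.Perm (Fin n), ((Equiv.Perm.sign σ : ℤˣ) : ℤ) •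
        ext' (fun i => a (σ i)) := by
    rw [← Finsupp.lmapDomain_apply ℤ ℤ, map_nsmul, map_sum, mul_smul]
    congr 1
    rw [Finset.smul_sum]
    apply Finset.sum_congr rfl
    intro σ _
    rw [map_smul, Finsupp.lmapDomain_apply,
      mapDomain_ext' (fun p : Place k F × Place k F => s(p.1, p.2))]
    simp only [push_pull (curve hF)]
    rw [← extM_apply, MultilinearMap.map_smul_univ, extM_apply]
    rw [smul_comm]
    congr 1
    simp only [Finset.prod_const, Finset.card_univ, Fintype.card_fin]
    push_cast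
    rfl
  have h3 : (m * 2 ^ n) • ∑ σ : Equiv.Perm (Fin n), ((Equiv.Perm.sign σ : ℤˣ) : ℤ) •
        ext' (fun i => a (σ i)) ∈ ((curve hF).symSq.pow n).Rat := by
    rw [← h2]
    exact h1
  exact h3

end

end VC
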